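import Pool.Agent.Lib.Mane.Sard

/-!
The Landis type lemma of `Pool.Agent.Lib.Mane.Sard` for functions with values in `R^j`.
-/

open Set Filter Topology MeasureTheory Metric
open scoped ENNReal NNReal

namespace Pool.Agent.Lib.ManeD

open Pool.Agent.Lib.Mane

section Density

variable {E : Type*} [NormedAddCommGroup E] [NormedSpace ℝ E] [FiniteDimensional ℝ E]
  [MeasurableSpace E] [BorelSpace E] (μ : Measure E) [μ.IsAddHaarMeasure]

/-- At a density point the variation of `σ` is `o(r^2)`. -/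
lemma eventually_small_vec {j : ℕ} {Z : Set E} {σ : E → Fin j → ℝ} {C : ℝ} (hC : 0 ≤ C)
    (hσ : ∀ z ∈ Z, ∀ z' ∈ Z, ‖σ z - σ z'‖ ≤ C * ‖z - z'‖ ^ 2)
    {x : E} (hxZ : x ∈ Z)
    (hx : Tendsto (fun r => μ (Z ∩ closedBall x r) / μ (closedBall x r)) (𝓝[>] 0) (𝓝 1))
    {ε : ℝ} (hε : 0 < ε) :
    ∀ᶠ r in 𝓝[>] (0:ℝ), ∀ z ∈ Z, ‖z - x‖ ≤ r → ‖σ z - σ x‖ ≤ ε * r ^ 2 := by
  have h1 : ∀ᶠ r in 𝓝[>] (0:ℝ), ∀ a : Fin j, ∀ z ∈ Z, ‖z - x‖ ≤ r → |σ z a - σ x a| ≤ ε * r ^ 2 := by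
    rw [eventually_all]
    intro a
    exact eventually_small_of_density μ (σ := fun z => σ z a) hC (fun z hz z' hz' => by
      have := norm_le_pi_norm (σ z - σ z') a
      rw [Pi.sub_apply, Real.norm_eq_abs] at this
      exact this.trans (hσ z hz z' hz')) hxZ hx hε
  filter_upwards [h1] with r hr z hz hzx
  rw [pi_norm_le_iff_of_nonneg (by positivity)]
  intro a
  rw [Pi.sub_apply, Real.norm_eq_abs]
  exact hr a z hz hzx

end Density

section Cover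

universe u
variable {E : Type u} [NormedAddCommGroup E] [NormedSpace ℝ E] [FiniteDimensional ℝ E]
  [MeasurableSpace E] [BorelSpace E] (μ : Measure E) [μ.IsAddHaarMeasure]

/-- Cover of an arbitrary piece by balls with controlled total size. -/
lemma cover_pieceJ {Y : Set E} {P : E → ℝ → Prop}
    (h : ∀ x ∈ Y, ∀ᶠ r in 𝓝[>] (0:ℝ), P x r)
    {ρ : ℝ} (hρ : 0 < ρ) (hρ1 : ρ ≤ 1) {N : ℕ} (hN : Module.finrank ℝ E ≤ N) {η : ℝ≥0∞} (hη : η ≠ 0) :
    ∃ (t : Set E) (r : E → ℝ), t.Countable ∧ t ⊆ Y ∧ (∀ x ∈ t, 0 < r x ∧ r x < ρ ∧ P x (r x)) ∧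
      Y ⊆ ⋃ x ∈ t, closedBall x (r x) ∧
      (∑' x : t, ENNReal.ofReal ((r x) ^ N)) * μ (ball (0:E) 1) ≤ μ Y + η := by
  let f : E → Set ℝ := fun x => {r | 0 < r ∧ r < ρ ∧ P x r}
  have hf : ∀ x ∈ Y, ∀ δ > 0, (f x ∩ Ioo 0 δ).Nonempty := by
    intro x hx δ hδ
    have h1 := h x hx
    have h2 : ∀ᶠ r in 𝓝[>] (0:ℝ), r ∈ Ioo 0 (min ρ δ) := Ioo_mem_nhdsGT (lt_min hρ hδ)
    obtain ⟨r, hr1, hr2⟩ := (h1.and h2).exists
    exact ⟨r, ⟨hr2.1, hr2.2.trans_le (min_le_left _ _), hr1⟩, hr2.1, hr2.2.trans_le (min_le_right _ _)⟩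
  obtain ⟨t, r, htc, htY, htr, hcov, hsum⟩ :=
    Besicovitch.exists_closedBall_covering_tsum_measure_le μ hη f Y hf
  refine ⟨t, r, htc, htY, fun x hx => htr x hx, hcov, ?_⟩
  refine le_trans ?_ hsum
  rw [← ENNReal.tsum_mul_right]
  apply ENNReal.tsum_le_tsum
  intro x
  have hr0 : 0 < r x := (htr x x.2).1
  have hr1 : r x ≤ 1 := (htr x x.2).2.1.le.trans hρ1
  rw [Measure.addHaar_closedBall μ _ hr0.le]
  gcongr 1
  exact ENNReal.ofReal_le_ofReal (pow_le_pow_of_le_one hr0.le hr1 hN)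

/-- The main covering lemma. -/
lemma cover_existsJ {Z : Set E} (hZ : Bornology.IsBounded Z) {j : ℕ} (hj : 1 ≤ j) {σ : E → Fin j → ℝ} {C : ℝ}
    (hC : 0 ≤ C) (hσ : ∀ z ∈ Z, ∀ z' ∈ Z, ‖σ z - σ z'‖ ≤ C * ‖z - z'‖ ^ 2)
    {m : ℕ} (hm : Module.finrank ℝ E ≤ m + 2 * j) {ε : ℝ} (hε : 0 < ε) :
    ∃ (t : Set E) (r δ : E → ℝ), t.Countable ∧ (∀ x ∈ t, 0 < r x ∧ r x < ε ∧ 0 ≤ δ x ∧
        ∀ z ∈ Z, ‖z - x‖ ≤ r x → ‖σ z - σ x‖ ≤ δ x) ∧
      Z ⊆ ⋃ x ∈ t, closedBall x (r x) ∧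
      ∑' x : t, ENNReal.ofReal ((r x) ^ m * (2 * δ x) ^ j) ≤ ENNReal.ofReal ε := by
  classical
  let μ : Measure E := Measure.addHaar
  set b := μ (ball (0:E) 1) with hb
  have hb0 : b ≠ 0 := (measure_ball_pos μ _ one_pos).ne'
  have hbt : b ≠ ∞ := measure_ball_lt_top.ne
  have hbpos : 0 < b.toReal := ENNReal.toReal_pos hb0 hbt
  have hZfin : μ Z ≠ ∞ := hZ.measure_lt_top.ne
  have hmin : 0 < min ε 1 := lt_min hε one_pos
  -- density points
  let G : Set E := {x | Tendsto (fun r => μ (Z ∩ closedBall x r) / μ (closedBall x r)) (𝓝[>] 0) (𝓝 1)}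
  have hae : ∀ᵐ x ∂(μ.restrict Z), x ∈ G := by
    filter_upwards [IsUnifLocDoublingMeasure.ae_tendsto_measure_inter_div μ Z 1] with x hx
    apply hx (fun _ => x) id tendsto_id
    filter_upwards [self_mem_nhdsWithin] with r hr
    have hr : (0:ℝ) < r := hr
    simp [hr.le]
  have hnull : μ (Z \ G) = 0 := by
    have h1 : μ.restrict Z Gᶜ = 0 := hae
    have h2 := Measure.le_restrict_apply (μ := μ) Z Gᶜ
    rw [h1] at h2
    have : Gᶜ ∩ Z = Z \ G := by ext y; simp [and_comm]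
    rw [this] at h2
    exact le_antisymm h2 zero_le
  -- good part
  set V := (μ Z + 1).toReal with hV
  have hVt : μ Z + 1 ≠ ∞ := by simp [hZfin]
  have hV0 : 0 < V := ENNReal.toReal_pos (by simp) hVt
  set κ := min (1/2) (ε * b.toReal / (4 * V)) with hκ
  have hκ0 : 0 < κ := by positivity
  have hκ1 : 2 * κ ≤ 1 := by linarith [min_le_left (1/2) (ε * b.toReal / (4 * V))]
  have hκ2 : (2 * κ) ^ j ≤ ε * b.toReal / (2 * V) := by
    calc (2 * κ) ^ j ≤ (2 * κ) ^ 1 := pow_le_pow_of_le_one (by positivity) hκ1 hj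
      _ = 2 * κ := pow_one _
      _ ≤ 2 * (ε * b.toReal / (4 * V)) := by gcongr; exact min_le_right _ _
      _ = ε * b.toReal / (2 * V) := by field_simp; ring
  obtain ⟨t1, r1, ht1c, ht1Y, ht1, hcov1, hsum1⟩ := cover_pieceJ μ (Y := Z ∩ G)
    (P := fun x r => ∀ z ∈ Z, ‖z - x‖ ≤ r → ‖σ z - σ x‖ ≤ κ * r ^ 2)
    (fun x hx => eventually_small_vec μ hC hσ hx.1 hx.2 hκ0) hmin (min_le_right _ _) hm one_ne_zero
  -- bad part
  set η := ε * b.toReal / (2 * ((2 * C) ^ j + 1)) with hη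
  have hη0 : 0 < η := by positivity
  obtain ⟨t2, r2, ht2c, ht2Y, ht2, hcov2, hsum2⟩ := cover_pieceJ μ (Y := Z \ G)
    (P := fun x r => ∀ z ∈ Z, ‖z - x‖ ≤ r → ‖σ z - σ x‖ ≤ C * r ^ 2)
    (fun x hx => by
      filter_upwards [self_mem_nhdsWithin] with r hr z hz hzx
      calc ‖σ z - σ x‖ ≤ C * ‖z - x‖ ^ 2 := hσ z hz x hx.1
        _ ≤ C * r ^ 2 := by gcongr) hmin (min_le_right _ _) hm (ENNReal.ofReal_pos.mpr hη0).ne'
  refine ⟨t1 ∪ t2, fun x => if x ∈ t1 then r1 x else r2 x,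
    fun x => if x ∈ t1 then κ * (r1 x)^2 else C * (r2 x)^2, ht1c.union ht2c, ?_, ?_, ?_⟩
  · intro x hx
    by_cases h1 : x ∈ t1
    · simp only [h1, if_true]
      obtain ⟨a1, a2, a3⟩ := ht1 x h1
      exact ⟨a1, a2.trans_le (min_le_left _ _), by positivity, a3⟩
    · simp only [h1, if_false]
      have h2 : x ∈ t2 := hx.resolve_left h1
      obtain ⟨a1, a2, a3⟩ := ht2 x h2
      exact ⟨a1, a2.trans_le (min_le_left _ _), by positivity, a3⟩
  · intro z hz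
    by_cases hzG : z ∈ G
    · obtain ⟨x, hx, hxz⟩ := mem_iUnion₂.mp (hcov1 ⟨hz, hzG⟩)
      refine mem_iUnion₂.mpr ⟨x, Or.inl hx, ?_⟩
      simpa [hx] using hxz
    · obtain ⟨x, hx, hxz⟩ := mem_iUnion₂.mp (hcov2 ⟨hz, hzG⟩)
      refine mem_iUnion₂.mpr ⟨x, Or.inr hx, ?_⟩
      have : x ∉ t1 := fun h => (ht2Y hx).2 (ht1Y h).2
      simpa [this] using hxz
  · have hle : ∑' x : ↥(t1 ∪ t2), ENNReal.ofReal ((if (x:E) ∈ t1 then r1 x else r2 x) ^ m *
        (2 * (if (x:E) ∈ t1 then κ * (r1 x)^2 else C * (r2 x)^2)) ^ j) ≤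
        (∑' x : t1, ENNReal.ofReal ((r1 x)^m * (2 * (κ * (r1 x)^2)) ^ j)) +
        (∑' x : t2, ENNReal.ofReal ((r2 x)^m * (2 * (C * (r2 x)^2)) ^ j)) := by
      refine (ENNReal.tsum_union_le (fun x : E => ENNReal.ofReal ((if x ∈ t1 then r1 x else r2 x) ^ m *
        (2 * (if x ∈ t1 then κ * (r1 x)^2 else C * (r2 x)^2)) ^ j)) t1 t2).trans ?_
      apply add_le_add
      · apply le_of_eq
        congr 1
        ext x
        simp [x.2]
      · apply le_of_eq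
        congr 1
        ext x
        have : (x:E) ∉ t1 := fun h => (ht2Y x.2).2 (ht1Y h).2
        simp [this]
    refine hle.trans ?_
    have hpull : ∀ (κ : ℝ) (_ : 0 ≤ κ) (t : Set E) (r : E → ℝ),
        (∑' x : t, ENNReal.ofReal ((r x)^m * (2 * (κ * (r x)^2)) ^ j)) =
        ENNReal.ofReal ((2 * κ) ^ j) * ∑' x : t, ENNReal.ofReal ((r x) ^ (m + 2 * j)) := by
      intro κ hκ t r
      rw [← ENNReal.tsum_mul_left]
      congr 1
      ext x
      rw [← ENNReal.ofReal_mul (by positivity)]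
      congr 1
      rw [pow_add, pow_mul, ← mul_assoc 2 κ, mul_pow (2 * κ)]
      ring
    have hb' : ∀ S : ℝ≥0∞, S = (S * b) * b⁻¹ := by
      intro S
      rw [mul_assoc, ENNReal.mul_inv_cancel hb0 hbt, mul_one]
    have hs1 : (∑' x : t1, ENNReal.ofReal ((r1 x)^m * (2 * (κ * (r1 x)^2)) ^ j)) ≤ ENNReal.ofReal (ε/2) := by
      rw [hpull κ hκ0.le, hb' (∑' x : t1, _)]
      calc _ ≤ ENNReal.ofReal ((2 * κ) ^ j) * ((μ (Z ∩ G) + 1) * b⁻¹) := by gcongr
        _ ≤ ENNReal.ofReal (ε * b.toReal / (2 * V)) * ((μ Z + 1) * b⁻¹) := by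
          gcongr
          exact inter_subset_left
        _ = ENNReal.ofReal (ε/2) := by
          rw [← ENNReal.ofReal_toReal hVt, ← hV, 
            ← ENNReal.ofReal_toReal hbt, ← ENNReal.ofReal_inv_of_pos hbpos, ← ENNReal.ofReal_mul (by positivity),
            ← ENNReal.ofReal_mul (by positivity), ENNReal.toReal_ofReal hbpos.le]
          congr 1
          field_simp
    have hs2 : (∑' x : t2, ENNReal.ofReal ((r2 x)^m * (2 * (C * (r2 x)^2)) ^ j)) ≤ ENNReal.ofReal (ε/2) := by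
      rw [hpull C hC, hb' (∑' x : t2, _)]
      calc _ ≤ ENNReal.ofReal ((2 * C) ^ j) * ((μ (Z \ G) + ENNReal.ofReal η) * b⁻¹) := by gcongr
        _ = ENNReal.ofReal ((2 * C) ^ j * (η * b.toReal⁻¹)) := by
          rw [hnull, zero_add]
          conv_lhs => rw [← ENNReal.ofReal_toReal hbt, ← ENNReal.ofReal_inv_of_pos hbpos,
            ← ENNReal.ofReal_mul (by positivity), ← ENNReal.ofReal_mul (by positivity)]
        _ ≤ ENNReal.ofReal (ε/2) := by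
          apply ENNReal.ofReal_le_ofReal
          rw [hη]
          have : (2 * C) ^ j * (ε * b.toReal / (2 * ((2 * C) ^ j + 1)) * b.toReal⁻¹) =
              (ε/2) * ((2 * C) ^ j / ((2 * C) ^ j + 1)) := by
            field_simp
          rw [this]
          have : (2 * C) ^ j / ((2 * C) ^ j + 1) ≤ 1 := by
            rw [div_le_one (by positivity)]; linarith
          nlinarith
    calc _ ≤ ENNReal.ofReal (ε/2) + ENNReal.ofReal (ε/2) := add_le_add hs1 hs2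
      _ = ENNReal.ofReal ε := by
        rw [← ENNReal.ofReal_add (by positivity) (by positivity)]; congr 1; ring

end Cover

section Final

variable {E : Type} [NormedAddCommGroup E] [NormedSpace ℝ E] [FiniteDimensional ℝ E]

/-- If `|s - s'| ≤ C ‖z - z'‖²` on `A ⊆ ℝ^j × E` with `dim E ≤ m + 2 j`, then for almost every `s` the
slice of `A` over `s` has arbitrarily small countable covers in the sense of `m`-dimensional content. -/
theorem sard_aeJ {m j : ℕ} (hj : 1 ≤ j) (hm : Module.finrank ℝ E ≤ m + 2 * j) {A : Set ((Fin j → ℝ) × E)}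
    (hbd : Bornology.IsBounded (Prod.snd '' A)) {C : ℝ} (hC : 0 ≤ C)
    (hA : ∀ p ∈ A, ∀ p' ∈ A, ‖p.1 - p'.1‖ ≤ C * ‖p.2 - p'.2‖ ^ 2) :
    ∀ᵐ s ∂(volume : Measure (Fin j → ℝ)), ∀ η > (0:ℝ), ∃ (t : Set E) (r : E → ℝ), t.Countable ∧
      (∀ x ∈ t, 0 < r x ∧ r x < η) ∧ {z | (s, z) ∈ A} ⊆ ⋃ x ∈ t, closedBall x (r x) ∧
      ∑' x : t, ENNReal.ofReal ((r x) ^ m) < ENNReal.ofReal η := by
  classical
  borelize E
  set Z : Set E := Prod.snd '' A with hZ
  have hex : ∀ z : E, ∃ s : Fin j → ℝ, z ∈ Z → (s, z) ∈ A := by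
    intro z
    by_cases hz : z ∈ Z
    · obtain ⟨p, hp, rfl⟩ := hz
      exact ⟨p.1, fun _ => hp⟩
    · exact ⟨0, fun h => absurd h hz⟩
  choose σ hσ using hex
  have hσ' : ∀ z ∈ Z, ∀ z' ∈ Z, ‖σ z - σ z'‖ ≤ C * ‖z - z'‖ ^ 2 := fun z hz z' hz' =>
    hA _ (hσ z hz) _ (hσ z' hz')
  have hσuniq : ∀ s z, (s, z) ∈ A → σ z = s := by
    intro s z h
    have hz : z ∈ Z := ⟨_, h, rfl⟩
    have := hA _ (hσ z hz) _ h
    simp only [sub_self, norm_zero] at this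
    have h2 : ‖σ z - s‖ ≤ 0 := by simpa using this
    exact sub_eq_zero.mp (norm_le_zero_iff.mp h2)
  have hcov : ∀ k : ℕ, ∃ (t : Set E) (r δ : E → ℝ), t.Countable ∧ (∀ x ∈ t, 0 < r x ∧ r x < (1/2:ℝ)^k ∧ 0 ≤ δ x ∧
        ∀ z ∈ Z, ‖z - x‖ ≤ r x → ‖σ z - σ x‖ ≤ δ x) ∧
      Z ⊆ ⋃ x ∈ t, closedBall x (r x) ∧
      ∑' x : t, ENNReal.ofReal ((r x) ^ m * (2 * δ x) ^ j) ≤ ENNReal.ofReal ((1/2:ℝ)^k) :=
    fun k => cover_existsJ hbd hj hC hσ' hm (by positivity)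
  choose t r δ htc ht htcov htsum using hcov
  have : ∀ k, Countable (t k) := fun k => (htc k).to_subtype
  let g : ℕ → (Fin j → ℝ) → ℝ≥0∞ := fun k s => ∑' x : t k,
    (closedBall (σ x) (δ k x)).indicator (fun _ => ENNReal.ofReal ((r k x) ^ m)) s
  have hgm : ∀ k, Measurable (g k) := by
    intro k
    apply Measurable.tsum
    intro x
    exact measurable_const.indicator measurableSet_closedBall
  have hgint : ∀ k, ∫⁻ s, g k s ≤ ENNReal.ofReal ((1/2:ℝ)^k) := by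
    intro k
    simp only [g]
    rw [lintegral_tsum (fun x => (measurable_const.indicator measurableSet_closedBall).aemeasurable)]
    refine le_trans (le_of_eq ?_) (htsum k)
    congr 1
    ext x
    have hx := ht k x x.2
    rw [lintegral_indicator measurableSet_closedBall, setLIntegral_const, Real.volume_pi_closedBall _ hx.2.2.1,
      ← ENNReal.ofReal_mul (pow_nonneg hx.1.le m), Fintype.card_fin]
  have hsumint : ∫⁻ s, ∑' k, g k s ≠ ∞ := by
    rw [lintegral_tsum (fun k => (hgm k).aemeasurable)]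
    have h1 : ∑' k, ∫⁻ s, g k s ≤ ∑' k : ℕ, ENNReal.ofReal ((1/2:ℝ)^k) := ENNReal.tsum_le_tsum hgint
    have h2 : ∑' k : ℕ, ENNReal.ofReal ((1/2:ℝ)^k) ≠ ∞ := by
      rw [← ENNReal.ofReal_tsum_of_nonneg (fun k => by positivity) summable_geometric_two]
      exact ENNReal.ofReal_ne_top
    exact (lt_of_le_of_lt h1 h2.lt_top).ne
  have hae := ae_lt_top (Measurable.tsum hgm) hsumint
  filter_upwards [hae] with s hs η hη
  have hg0 : Tendsto (fun k => g k s) atTop (𝓝 0) := ENNReal.tendsto_atTop_zero_of_tsum_ne_top hs.ne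
  have h1 : ∀ᶠ k in atTop, g k s < ENNReal.ofReal η :=
    hg0.eventually (gt_mem_nhds (ENNReal.ofReal_pos.mpr hη))
  have h2 : ∀ᶠ k : ℕ in atTop, (1/2:ℝ)^k < η :=
    (tendsto_pow_atTop_nhds_zero_of_lt_one (by norm_num) (by norm_num)).eventually (gt_mem_nhds hη)
  obtain ⟨k, hk1, hk2⟩ := (h1.and h2).exists
  refine ⟨{x ∈ t k | s ∈ closedBall (σ x) (δ k x)}, r k, (htc k).mono (sep_subset _ _), ?_, ?_, ?_⟩
  · intro x hx
    exact ⟨(ht k x hx.1).1, (ht k x hx.1).2.1.trans hk2⟩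
  · intro z hz
    have hz : (s, z) ∈ A := hz
    have hzZ : z ∈ Z := ⟨_, hz, rfl⟩
    obtain ⟨x, hx, hxz⟩ := mem_iUnion₂.mp (htcov k hzZ)
    have h3 := (ht k x hx).2.2.2 z hzZ (by rwa [mem_closedBall, dist_eq_norm] at hxz)
    rw [hσuniq s z hz] at h3
    refine mem_iUnion₂.mpr ⟨x, ⟨hx, ?_⟩, hxz⟩
    rw [mem_closedBall, dist_eq_norm]; exact h3
  · refine lt_of_le_of_lt (le_of_eq ?_) hk1
    simp only [g]
    have e1 : ∑' x : ↥{x ∈ t k | s ∈ closedBall (σ x) (δ k x)}, ENNReal.ofReal ((r k x) ^ m)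
        = ∑' x : E, indicator {x ∈ t k | s ∈ closedBall (σ x) (δ k x)} (fun x => ENNReal.ofReal ((r k x) ^ m)) x :=
      tsum_subtype {x ∈ t k | s ∈ closedBall (σ x) (δ k x)} (fun x => ENNReal.ofReal ((r k x) ^ m))
    have e2 : ∑' x : t k, (closedBall (σ x) (δ k x)).indicator (fun _ => ENNReal.ofReal ((r k x) ^ m)) s
        = ∑' x : E, indicator (t k) (fun x => (closedBall (σ x) (δ k x)).indicator (fun _ => ENNReal.ofReal ((r k x) ^ m)) s) x :=
      tsum_subtype (t k) (fun x => (closedBall (σ x) (δ k x)).indicator (fun _ => ENNReal.ofReal ((r k x) ^ m)) s)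
    rw [e1, e2]
    congr 1
    ext x
    by_cases hx : x ∈ t k
    · by_cases hs : s ∈ closedBall (σ x) (δ k x)
      · rw [indicator_of_mem (show x ∈ {x ∈ t k | s ∈ closedBall (σ x) (δ k x)} from ⟨hx, hs⟩),
          indicator_of_mem hx, indicator_of_mem hs]
      · rw [indicator_of_notMem (fun h => hs h.2), indicator_of_mem hx, indicator_of_notMem hs]
    · rw [indicator_of_notMem (fun h => hx h.1), indicator_of_notMem hx]

end Final

end Pool.Agent.Lib.ManeD
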