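import Pool.Agent.Lib.Mane.PotTop
import Pool.Agent.Lib.ManeD.SardJ

/-!
Bad points for `j + 1` minimizing measures in general position.
-/

open Set Filter Topology MeasureTheory Metric BoundedContinuousFunction
open scoped ENNReal NNReal Interval RealInnerProductSpace

namespace Pool.Agent.Lib.ManeD

open Pool.Agent.Lib.Mane

variable {n d j k : ℕ}

/-- The tolerance. -/
noncomputable def tol (j : ℕ) : ℝ := 1 / (4 * ((j:ℝ) + 1))

lemma tol_pos (j : ℕ) : 0 < tol j := by unfold tol; positivity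

lemma tol_mul (j : ℕ) : 2 * (j * tol j) ≤ 1 / 2 := by
  unfold tol
  have : (j:ℝ) * (1 / (4 * ((j:ℝ) + 1))) ≤ 1 / 4 := by
    rw [mul_one_div, div_le_div_iff₀ (by positivity) (by norm_num)]
    linarith
  linarith

/-- bad points of the affine plane `h0 + J u`: `z = J* c + u` such that there are `j + 1` `c`-minimizing measures with
rotation vector `h0 + J u` whose `Ψ`-integrals are close to the vertices `e0`, `e0 + e_a` of a simplex. -/
def BadJ (L : Phase n → ℝ) (h0 : E n) (J : E d →ₗᵢ[ℝ] E n) (Ψ : Fin j → Tor n × UnitAddCircle → ℝ) (R : ℝ)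
    (e0 : Fin j → ℝ) : Set (E d) :=
  {z | ∃ (c : E n) (μ0 : ProbabilityMeasure (Phase n)) (μ : Fin j → ProbabilityMeasure (Phase n)) (u : E d),
    ‖c‖ ≤ R ∧ IsMin (shift L c) μ0 ∧ (∀ a, IsMin (shift L c) (μ a)) ∧
    rot μ0 = h0 + J u ∧ (∀ a, rot (μ a) = h0 + J u) ∧ z = adj J c + u ∧
    (∀ b, |pint (Ψ b) μ0 - e0 b| ≤ tol j) ∧
    ∀ a b, |pint (Ψ b) (μ a) - e0 b - (if a = b then 1 else 0)| ≤ tol j}

/-- the integral of a linear combination -/
lemma pint_lin {Ψ : Fin j → Tor n × UnitAddCircle → ℝ} (hΨ : ∀ b, Continuous (Ψ b)) (τ : Fin j → ℝ)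
    {μ : ProbabilityMeasure (Phase n)} (hμ : ∃ K, Conc K μ) :
    pint (fun p => ∑ b, τ b * Ψ b p) μ = ∑ b, τ b * pint (Ψ b) μ := by
  obtain ⟨K, hK⟩ := hμ
  simp only [pint]
  rw [integral_finsetSum]
  · apply Finset.sum_congr rfl
    intro b _
    exact integral_const_mul _ _
  · intro b _
    exact (hK.integrable ((hΨ b).comp continuous_prj)).const_mul _

/-- a sup-norm attaining coordinate -/
lemma exists_coord (hj : 1 ≤ j) (τ : Fin j → ℝ) : ∃ a, |τ a| = ‖τ‖ := by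
  have : Nonempty (Fin j) := ⟨⟨0, hj⟩⟩
  obtain ⟨a, ha⟩ := exists_eq_ciSup_of_finite (f := fun i => ‖τ i‖)
  refine ⟨a, ?_⟩
  rw [← Real.norm_eq_abs, ha]
  apply le_antisymm
  · exact ciSup_le fun i => norm_le_pi_norm τ i
  · exact (pi_norm_le_iff_of_nonempty _).mpr fun i => le_ciSup (f := fun i => ‖τ i‖) (Set.finite_range _).bddAbove i

/-- the algebraic core: a difference of values near two vertices -/
lemma lin_lower {τ x y e0 v w : Fin j → ℝ}
    (hx : ∀ b, |x b - e0 b - v b| ≤ tol j) (hy : ∀ b, |y b - e0 b - w b| ≤ tol j) :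
    (∑ b, τ b * (v b - w b)) - ‖τ‖ / 2 ≤ ∑ b, τ b * x b - ∑ b, τ b * y b := by
  rw [← Finset.sum_sub_distrib]
  have h1 : ∀ b, τ b * (v b - w b) - ‖τ‖ * (2 * tol j) ≤ τ b * x b - τ b * y b := by
    intro b
    have hb : |τ b| ≤ ‖τ‖ := norm_le_pi_norm τ b
    have e : τ b * x b - τ b * y b = τ b * (v b - w b) + τ b * ((x b - e0 b - v b) - (y b - e0 b - w b)) := by ring
    have h2 : |τ b * ((x b - e0 b - v b) - (y b - e0 b - w b))| ≤ ‖τ‖ * (2 * tol j) := by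
      rw [abs_mul]
      apply mul_le_mul hb _ (abs_nonneg _) (norm_nonneg _)
      calc _ ≤ |x b - e0 b - v b| + |y b - e0 b - w b| := abs_sub _ _
        _ ≤ tol j + tol j := add_le_add (hx b) (hy b)
        _ = 2 * tol j := by ring
    have h3 := (abs_le.mp h2).1
    rw [e]; linarith
  have h2 := Finset.sum_le_sum (fun b (_ : b ∈ Finset.univ) => h1 b)
  rw [Finset.sum_sub_distrib, Finset.sum_const, Finset.card_univ, Fintype.card_fin, nsmul_eq_mul] at h2
  have h3 : (j:ℝ) * (‖τ‖ * (2 * tol j)) ≤ ‖τ‖ / 2 := by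
    have := tol_mul j
    have h0 := norm_nonneg τ
    nlinarith
  linarith

/-- the Sard inequality for bad points of two nearby Lagrangians -/
lemma bad_ineqJ (hj : 1 ≤ j) {La Lb : Phase n → ℝ} {h0 : E n} {J : E d →ₗᵢ[ℝ] E n} {g : Tor n × UnitAddCircle → ℝ}
    {Ψ : Fin j → Tor n × UnitAddCircle → ℝ} (hg : Continuous g) (hΨ : ∀ b, Continuous (Ψ b))
    (hab : Lb = addPot La g) (hLa : IsTonelli La) (hLb : IsTonelli Lb) {R ε : ℝ} {e0 τ : Fin j → ℝ}
    (hgτ : ∀ p, |g p - ∑ b, τ b * Ψ b p| ≤ ε) {z z' : E d} (hz : z ∈ BadJ La h0 J Ψ R e0) (hz' : z' ∈ BadJ Lb h0 J Ψ R e0) :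
    ‖τ‖ * (1 / 2) ≤ 1 / 4 * ‖z - z'‖ ^ 2 + 2 * ε := by
  obtain ⟨c, μ0, μ, u, -, m0, m1, r0, r1, rfl, p0, p1⟩ := hz
  obtain ⟨c', ν0, ν, u', -, n0, n1, s0, s1, rfl, q0, q1⟩ := hz'
  -- split pint g
  have hsplit : ∀ μ : ProbabilityMeasure (Phase n), (∃ K, Conc K μ) → |pint g μ - ∑ b, τ b * pint (Ψ b) μ| ≤ ε := by
    intro μ hμ
    rw [← pint_lin hΨ τ hμ]
    obtain ⟨K, hK⟩ := hμ
    have i1 : Integrable (fun z => g (prj z)) (μ : Measure (Phase n)) := hK.integrable (hg.comp continuous_prj)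
    have hc2 : Continuous (fun p => ∑ b, τ b * Ψ b p) := continuous_finsetSum _ fun b _ => continuous_const.mul (hΨ b)
    have i2 : Integrable (fun z => (fun p => ∑ b, τ b * Ψ b p) (prj z)) (μ : Measure (Phase n)) :=
      hK.integrable (hc2.comp continuous_prj)
    have : pint g μ - pint (fun p => ∑ b, τ b * Ψ b p) μ = pint (fun p => g p - ∑ b, τ b * Ψ b p) μ := by
      simp only [pint]
      rw [← integral_sub i1 i2]
    rw [this]
    exact pint_abs_le hgτ μ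
  have hin : 4 * ⟪adj J c' - adj J c, u' - u⟫ ≤ ‖(adj J c + u) - (adj J c' + u')‖ ^ 2 := by
    have := four_inner_le (adj J c' - adj J c) (u' - u)
    have e : (adj J c + u) - (adj J c' + u') = -((adj J c' - adj J c) + (u' - u)) := by abel
    rw [e, norm_neg]; exact this
  have hconv : ∀ ν μ : ProbabilityMeasure (Phase n), rot ν = h0 + J u' → rot μ = h0 + J u →
      ⟪c' - c, rot ν - rot μ⟫ = ⟪adj J c' - adj J c, u' - u⟫ := by
    intro ν μ h1 h2
    rw [h1, h2, add_sub_add_left_eq_sub, ← map_sub, ← inner_adj, map_sub]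
  obtain ⟨a, ha⟩ := exists_coord hj τ
  have hsum : ∑ b, τ b * ((if a = b then (1:ℝ) else 0) - 0) = τ a := by
    simp [Finset.sum_ite_eq]
  have hsum' : ∑ b, τ b * ((0:ℝ) - (if a = b then (1:ℝ) else 0)) = -τ a := by
    simp [Finset.sum_ite_eq]
  rcases le_total 0 (τ a) with hτ | hτ
  · have key := key_ineq hg hab hLa hLb m0 (n1 a)
    rw [hconv _ _ (s1 a) r0] at key
    have h1 := lin_lower (τ := τ) (x := fun b => pint (Ψ b) (ν a)) (y := fun b => pint (Ψ b) μ0) (e0 := e0)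
      (v := fun b => if a = b then 1 else 0) (w := fun _ => 0) (fun b => q1 a b) (fun b => by simpa using p0 b)
    rw [hsum] at h1
    have h2 := abs_le.mp (hsplit (ν a) (n1 a).1.exists_conc)
    have h3 := abs_le.mp (hsplit μ0 m0.1.exists_conc)
    rw [abs_of_nonneg hτ] at ha
    linarith
  · have key := key_ineq hg hab hLa hLb (m1 a) n0
    rw [hconv _ _ s0 (r1 a)] at key
    have h1 := lin_lower (τ := τ) (x := fun b => pint (Ψ b) ν0) (y := fun b => pint (Ψ b) (μ a)) (e0 := e0)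
      (v := fun _ => 0) (w := fun b => if a = b then 1 else 0) (fun b => by simpa using q0 b) (fun b => p1 a b)
    rw [hsum'] at h1
    have h2 := abs_le.mp (hsplit ν0 n0.1.exists_conc)
    have h3 := abs_le.mp (hsplit (μ a) (m1 a).1.exists_conc)
    rw [abs_of_nonpos hτ] at ha
    linarith

/-- bad points are bounded, locally uniformly -/
lemma bad_boundedJ {L : Phase n → ℝ} (hL : IsTonelli L) (h0 : E n) (J : E d →ₗᵢ[ℝ] E n) (R : ℝ) :
    ∃ M, ∃ ρ > 0, ∀ L' : Phase n → ℝ, IsTonelli L' → Close L L' ρ → (∀ z, |L' z - L z| ≤ ρ) →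
      ∀ (Ψ : Fin j → Tor n × UnitAddCircle → ℝ) e0, ∀ z ∈ BadJ L' h0 J Ψ R e0, ‖z‖ ≤ M := by
  obtain ⟨C0, C2, K, ρ, hρ, hS⟩ := exists_unif_speedData hL R
  refine ⟨‖adj J‖ * R + (K + ‖h0‖), ρ, hρ, fun L' hL' h1 h2 Ψ e0 z hz => ?_⟩
  obtain ⟨c, μ1, μ2, u, hc, m1, -, r1, -, rfl, -, -⟩ := hz
  have hK := norm_rot_le (m1.conc (hL'.shift c) (hS L' hL' h1 h2 c hc))
  have hu : ‖u‖ ≤ K + ‖h0‖ := by
    have e : J u = rot μ1 - h0 := by rw [r1]; abel
    calc ‖u‖ = ‖J u‖ := (J.norm_map u).symm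
      _ = ‖rot μ1 - h0‖ := by rw [e]
      _ ≤ ‖rot μ1‖ + ‖h0‖ := norm_sub_le _ _
      _ ≤ K + ‖h0‖ := by gcongr
  have hc' : ‖adj J c‖ ≤ ‖adj J‖ * R := ((adj J).le_opNorm c).trans (by gcongr)
  exact (norm_add_le _ _).trans (add_le_add hc' hu)

/-! ### Small perturbations -/

/-- `f + ∑ s_a Ψ_a` -/
def addV (f : Pot n k) (Ψ : Fin j → Pot n k) (s : Fin j → ℝ) : Pot n k :=
  ⟨fun p => f.1 p + ∑ a, s a * (Ψ a).1 p, by
    have : liftP (fun p => f.1 p + ∑ a, s a * (Ψ a).1 p) = fun p => liftP f.1 p + ∑ a, s a * liftP (Ψ a).1 p := rfl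
    rw [this]
    exact f.2.add (ContDiff.sum fun a _ => contDiff_const.mul (Ψ a).2)⟩

lemma pot_perturbV (f : Pot n k) (Ψ : Fin j → Pot n k) {U : Set (Pot n k)} (hU : U ∈ 𝓝 f) :
    ∃ ε > 0, ∀ s : Fin j → ℝ, ‖s‖ < ε → addV f Ψ s ∈ U := by
  obtain ⟨ε, hε, H⟩ := pot_exists_close hU
  have hex : ∀ (a : Fin j) (i : Fin (k + 1)), ∃ M, 0 ≤ M ∧ ∀ p, ‖iteratedFDeriv ℝ (i:ℕ) (liftP (Ψ a).1) p‖ ≤ M := fun a i =>
    pot_bounded (Ψ a) (by omega)
  choose M hM0 hM using hex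
  obtain ⟨B, hB⟩ := finset_ub (Finset.univ : Finset (Fin j × Fin (k + 1))) (fun x => M x.1 x.2)
  have hB0 : 0 ≤ |B| := abs_nonneg B
  refine ⟨ε / (j * |B| + 1), by positivity, fun s hs => H _ (fun i hi p => ?_)⟩
  have hc : ∀ g : Pot n k, ContDiffAt ℝ i (liftP g.1) p := fun g => (g.2.of_le (by exact_mod_cast hi)).contDiffAt
  have hc' : ∀ g : Pot n k, ContDiff ℝ i (liftP g.1) := fun g => (g.2.of_le (by exact_mod_cast hi))
  have e1 : liftP (addV f Ψ s).1 = liftP f.1 + fun y => ∑ a, (s a • liftP (Ψ a).1) y := by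
    ext1 y; simp [liftP, addV]
  have hcs : ∀ a ∈ Finset.univ, ContDiff ℝ i (s a • liftP (Ψ a).1) := fun a _ => (hc' (Ψ a)).const_smul (s a)
  have hcsum : ContDiff ℝ i (fun y => ∑ a, (s a • liftP (Ψ a).1) y) := ContDiff.sum hcs
  have e2 : iteratedFDeriv ℝ i (liftP (addV f Ψ s).1) p = iteratedFDeriv ℝ i (liftP f.1) p +
      ∑ a, s a • iteratedFDeriv ℝ i (liftP (Ψ a).1) p := by
    rw [e1, iteratedFDeriv_add_apply (hc f) hcsum.contDiffAt, iteratedFDeriv_sum hcs]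
    congr 1
    rw [Finset.sum_apply]
    apply Finset.sum_congr rfl
    intro a _
    rw [iteratedFDeriv_const_smul_apply (hc (Ψ a))]
  rw [e2, dist_self_add_right]
  have h1 : ∀ a, ‖iteratedFDeriv ℝ i (liftP (Ψ a).1) p‖ ≤ |B| := fun a =>
    ((hM a ⟨i, by omega⟩ p).trans (hB (a, ⟨i, by omega⟩) (Finset.mem_univ _))).trans (le_abs_self B)
  calc ‖∑ a, s a • iteratedFDeriv ℝ i (liftP (Ψ a).1) p‖ ≤ ∑ a, ‖s a • iteratedFDeriv ℝ i (liftP (Ψ a).1) p‖ := norm_sum_le _ _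
    _ ≤ ∑ _a : Fin j, ‖s‖ * |B| := by
      apply Finset.sum_le_sum
      intro a _
      rw [norm_smul]
      exact mul_le_mul (norm_le_pi_norm s a) (h1 a) (norm_nonneg _) (norm_nonneg _)
    _ = j * |B| * ‖s‖ := by
      rw [Finset.sum_const, Finset.card_univ, Fintype.card_fin, nsmul_eq_mul]; ring
    _ ≤ j * |B| * (ε / (j * |B| + 1)) := by gcongr
    _ < ε := by
      rw [mul_div_assoc', div_lt_iff₀ (by positivity)]
      nlinarith

/-- a countable family of potentials which is uniformly dense -/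
lemma exists_dense (n k : ℕ) : ∃ ψ : ℕ → Pot n k, ∀ (g : C(Tor n × UnitAddCircle, ℝ)) (ε : ℝ), 0 < ε →
    ∃ l, ∀ p, |g p - (ψ l).1 p| ≤ ε := by
  have hsep : TopologicalSpace.IsSeparable ((potAlg n k : Set C(Tor n × UnitAddCircle, ℝ))) :=
    TopologicalSpace.IsSeparable.of_separableSpace _
  obtain ⟨D, hDsub, hDc, hDd⟩ := hsep.exists_countable_dense_subset
  have hDne : D.Nonempty := by
    by_contra hne
    rw [not_nonempty_iff_eq_empty] at hne
    subst hne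
    rw [closure_empty] at hDd
    exact hDd (potAlg n k).zero_mem
  obtain ⟨d, hd⟩ := hDc.exists_eq_range hDne
  have hdmem : ∀ j, ContDiff ℝ k (liftP (d j)) := fun j => hDsub (by rw [hd]; exact mem_range_self j)
  refine ⟨fun j => ⟨d j, hdmem j⟩, fun g ε hε => ?_⟩
  have hcl : g ∈ closure D := by
    have h1 : closure (potAlg n k : Set C(Tor n × UnitAddCircle, ℝ)) ⊆ closure D := closure_minimal hDd isClosed_closure
    apply h1
    have h2 := ContinuousMap.subalgebra_topologicalClosure_eq_top_of_separatesPoints (potAlg n k) potAlg_separates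
    have h3 : g ∈ (potAlg n k).topologicalClosure := by rw [h2]; trivial
    exact h3
  obtain ⟨f, hfD, hf⟩ := Metric.mem_closure_iff.mp hcl ε hε
  rw [hd] at hfD
  obtain ⟨l, rfl⟩ := hfD
  refine ⟨l, fun p => ?_⟩
  have := ContinuousMap.dist_apply_le_dist (f := g) (g := d l) p
  rw [Real.dist_eq] at this
  exact this.trans hf.le

end Pool.Agent.Lib.ManeD
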