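import Pool.Agent.Lib.Mane.Defs

/-!
The affine dimension of the set of `(L, h)`-minimizing measures.
-/

open Set Filter Topology MeasureTheory

namespace Pool.Agent.Lib.ManeD

open Pool.Agent.Lib.Mane

/-- The set of `(L, h)`-minimizing measures has affine dimension at least `j`: there are `j + 1` of them
which are affinely independent in the real vector space of signed measures. -/
def DimGE {n : ℕ} (L : Phase n → ℝ) (h : E n) (j : ℕ) : Prop :=
  ∃ μ : Fin (j + 1) → ProbabilityMeasure (Phase n), (∀ i, IsHomMin L h (μ i)) ∧
    AffineIndependent ℝ (fun i => (μ i : Measure (Phase n)).toSignedMeasure)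

end Pool.Agent.Lib.ManeD
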