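import Pool.Agent.Lib.Mane.Defs

/-!
Cohomologically minimizing measures.
-/

open Set Filter Topology MeasureTheory

namespace Pool.Agent.Lib.ManeD

open Pool.Agent.Lib.Mane

/-- `μ` is `(L, c)`-minimizing, `c ∈ H^1(T^n, R) = R^n`: it minimizes `∫ L dμ - ⟨c, rot μ⟩` among the
invariant measures. -/
def IsCMin {n : ℕ} (L : Phase n → ℝ) (c : E n) (μ : ProbabilityMeasure (Phase n)) : Prop :=
  IsInv L μ ∧ ∀ ν, IsInv L ν → action L μ - inner ℝ c (rot μ) ≤ action L ν - inner ℝ c (rot ν)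

end Pool.Agent.Lib.ManeD
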