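import Pool.Agent.Lib.Mane.Generic
import Pool.Agent.Lib.ManeD.BadJ
import Pool.Agent.Lib.ManeD.Defs

/-!
Generic smallness of the set of homology classes with `j + 1` affinely independent minimizing measures.
-/

open Set Filter Topology MeasureTheory Metric BoundedContinuousFunction
open scoped ENNReal NNReal Interval RealInnerProductSpace

namespace Pool.Agent.Lib.ManeD

open Pool.Agent.Lib.Mane

variable {n d j k : ℕ}

/-- limits of bad points over Tonelli potentials -/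
def BadSJ (L : Phase n → ℝ) (h0 : E n) (J : E d →ₗᵢ[ℝ] E n) (Ψ : Fin j → Pot n k) (R : ℝ) (e0 : Fin j → ℝ)
    (f : Pot n k) : Set (E d) :=
  {z | ∀ ε > 0, ∃ f' : Pot n k, IsTonelli (addPot L f'.1) ∧ PClose f.1 f'.1 ε ∧
    ∃ z' ∈ BadJ (addPot L f'.1) h0 J (fun b => (Ψ b).1) R e0, ‖z - z'‖ ≤ ε}

lemma isClosed_badSJ (L : Phase n → ℝ) (h0 : E n) (J : E d →ₗᵢ[ℝ] E n) (Ψ : Fin j → Pot n k) (R : ℝ) (e0 : Fin j → ℝ)
    (f : Pot n k) : IsClosed (BadSJ L h0 J Ψ R e0 f) := by
  apply isClosed_of_closure_subset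
  intro z hz ε hε
  obtain ⟨z1, hz1, hd⟩ := Metric.mem_closure_iff.mp hz (ε / 2) (half_pos hε)
  obtain ⟨f', h1, h2, z', h3, h4⟩ := hz1 (ε / 2) (half_pos hε)
  refine ⟨f', h1, h2.mono (by linarith), z', h3, ?_⟩
  rw [dist_eq_norm] at hd
  have e : z - z' = (z - z1) + (z1 - z') := by abel
  rw [e]
  exact (norm_add_le _ _).trans (by linarith)

/-- local boundedness near a Tonelli potential -/
lemma bad_bounded_nearJ {L : Phase n → ℝ} (hL : IsC2 L) (hk : 1 ≤ k) {f0 : Pot n k} (hf0 : IsTonelli (addPot L f0.1))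
    (h0 : E n) (J : E d →ₗᵢ[ℝ] E n) (R : ℝ) :
    ∃ M, ∃ ρ > 0, ∀ f : Pot n k, IsTonelli (addPot L f.1) → PClose f0.1 f.1 ρ →
      ∀ (Ψ : Fin j → Tor n × UnitAddCircle → ℝ) e0, ∀ z ∈ BadJ (addPot L f.1) h0 J Ψ R e0, ‖z‖ ≤ M := by
  obtain ⟨M, ρ, hρ, H⟩ := bad_boundedJ (j := j) hf0 h0 J R
  exact ⟨M, ρ, hρ, fun f hf hcl Ψ e0 z hz => H _ hf (hcl.close hL (pot_c1 hk f0) (pot_c1 hk f))
    (fun z => hcl.addPot_abs z) Ψ e0 z hz⟩

/-- the Sard inequality -/
lemma badS_ineqJ (hj : 1 ≤ j) {L : Phase n → ℝ} {h0 : E n} {J : E d →ₗᵢ[ℝ] E n} {Ψ : Fin j → Pot n k} {R : ℝ}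
    {e0 : Fin j → ℝ} {f0 : Pot n k} {s s' : Fin j → ℝ}
    {z z' : E d} (hz : z ∈ BadSJ L h0 J Ψ R e0 (addV f0 Ψ s)) (hz' : z' ∈ BadSJ L h0 J Ψ R e0 (addV f0 Ψ s')) :
    ‖s' - s‖ * (1 / 2) ≤ 1 / 4 * ‖z - z'‖ ^ 2 := by
  apply le_of_forall_eps (K := ‖z - z'‖ + 1 + 4) (by positivity) one_pos
  intro ε hε hε1
  obtain ⟨f1, hf1, hc1, z1, hz1, hd1⟩ := hz ε hε
  obtain ⟨f2, hf2, hc2, z2, hz2, hd2⟩ := hz' ε hε
  have hab : addPot L f2.1 = addPot (addPot L f1.1) (fun p => f2.1 p - f1.1 p) := by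
    ext z; simp only [addPot]; ring
  have hg : ∀ p, |(f2.1 p - f1.1 p) - ∑ b, (s' - s) b * (Ψ b).1 p| ≤ 2 * ε := by
    intro p
    have a1 := abs_le.mp (hc1.abs_le p)
    have a2 := abs_le.mp (hc2.abs_le p)
    have e : ∑ b, (s' - s) b * (Ψ b).1 p = ∑ b, s' b * (Ψ b).1 p - ∑ b, s b * (Ψ b).1 p := by
      rw [← Finset.sum_sub_distrib]
      apply Finset.sum_congr rfl
      intro b _
      rw [Pi.sub_apply]; ring
    rw [e]
    simp only [addV] at a1 a2
    rw [abs_le]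
    constructor <;> linarith
  have key := bad_ineqJ hj (g := fun p => f2.1 p - f1.1 p) ((pot_continuous f2).sub (pot_continuous f1))
    (fun b => pot_continuous (Ψ b)) hab hf1 hf2 hg hz1 hz2
  have hn : ‖z1 - z2‖ ≤ ‖z - z'‖ + 2 * ε := by
    have e : z1 - z2 = -(z - z1) + (z - z') + (z' - z2) := by abel
    rw [e]
    calc _ ≤ ‖-(z - z1)‖ + ‖z - z'‖ + ‖z' - z2‖ := norm_add₃_le
      _ ≤ ε + ‖z - z'‖ + ε := by rw [norm_neg]; gcongr
      _ = _ := by ring
  have hsq : ‖z1 - z2‖ ^ 2 ≤ (‖z - z'‖ + 2 * ε) ^ 2 := by gcongr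
  have h0 := norm_nonneg (z - z')
  nlinarith

/-- upper semicontinuity -/
lemma badS_uscJ {L : Phase n → ℝ} {h0 : E n} {J : E d →ₗᵢ[ℝ] E n} {Ψ : Fin j → Pot n k} {R M ρ : ℝ}
    {e0 : Fin j → ℝ} {f0 f : Pot n k}
    (hM : ∀ f : Pot n k, IsTonelli (addPot L f.1) → PClose f0.1 f.1 ρ →
      ∀ (Ψ : Fin j → Tor n × UnitAddCircle → ℝ) e0, ∀ z ∈ BadJ (addPot L f.1) h0 J Ψ R e0, ‖z‖ ≤ M)
    (hρ : 0 < ρ) (hf : PClose f0.1 f.1 (ρ / 2)) {V : Set (E d)} (hV : IsOpen V) (hVf : BadSJ L h0 J Ψ R e0 f ⊆ V) :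
    ∃ ε > 0, ∀ f' : Pot n k, IsTonelli (addPot L f'.1) → PClose f.1 f'.1 ε →
      BadJ (addPot L f'.1) h0 J (fun b => (Ψ b).1) R e0 ⊆ V := by
  by_contra hcon
  push Not at hcon
  have hex : ∀ i : ℕ, ∃ f' : Pot n k, IsTonelli (addPot L f'.1) ∧ PClose f.1 f'.1 (1 / ((i:ℝ) + 1)) ∧
      ∃ z ∈ BadJ (addPot L f'.1) h0 J (fun b => (Ψ b).1) R e0, z ∉ V := by
    intro i
    obtain ⟨f', h1, h2, h3⟩ := hcon (1 / ((i:ℝ) + 1)) (by positivity)
    rw [not_subset] at h3
    exact ⟨f', h1, h2, h3⟩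
  choose fs hT hcl zs hzs hzV using hex
  have hsmall : Tendsto (fun i : ℕ => 1 / ((i:ℝ) + 1)) atTop (𝓝 0) := tendsto_one_div_add_atTop_nhds_zero_nat
  obtain ⟨N, hN⟩ := eventually_atTop.mp (hsmall.eventually (gt_mem_nhds (half_pos hρ)))
  have hbd : ∀ i, zs (i + N) ∈ closedBall (0 : E d) M := by
    intro i
    rw [mem_closedBall, dist_zero_right]
    refine hM (fs (i + N)) (hT _) ?_ _ _ _ (hzs _)
    have := hf.trans ((hcl (i + N)).mono (hN (i + N) (by omega)).le)
    rwa [add_halves] at this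
  obtain ⟨z, -, φ, hφ, hlim⟩ := (isCompact_closedBall (0 : E d) M).tendsto_subseq hbd
  have hzV' : z ∉ V := by
    have : z ∈ Vᶜ := hV.isClosed_compl.mem_of_tendsto hlim (Eventually.of_forall fun i => hzV _)
    exact this
  apply hzV'
  apply hVf
  intro ε hε
  have hφ' : Tendsto (fun i => φ i + N) atTop atTop := (tendsto_add_atTop_nat N).comp hφ.tendsto_atTop
  have e1 := (hsmall.comp hφ').eventually (gt_mem_nhds hε)
  have e2 : ∀ᶠ i in atTop, ‖z - zs (φ i + N)‖ < ε := by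
    have := (tendsto_iff_norm_sub_tendsto_zero.mp hlim).eventually (gt_mem_nhds hε)
    filter_upwards [this] with i hi
    rw [norm_sub_rev]; exact hi
  obtain ⟨i, hi1, hi2⟩ := (e1.and e2).exists
  exact ⟨fs (φ i + N), hT _, (hcl _).mono hi1.le, zs (φ i + N), hzs _, hi2.le⟩

/-- density -/
lemma badS_denseJ (hj : 1 ≤ j) {m : ℕ} (hd : d ≤ m + 2 * j) {L : Phase n → ℝ} {h0 : E n} {J : E d →ₗᵢ[ℝ] E n}
    {Ψ : Fin j → Pot n k} {R M ρ : ℝ} {e0 : Fin j → ℝ} {f0 : Pot n k} (hk : 1 ≤ k)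
    (hM : ∀ f : Pot n k, IsTonelli (addPot L f.1) → PClose f0.1 f.1 ρ →
      ∀ (Ψ : Fin j → Tor n × UnitAddCircle → ℝ) e0, ∀ z ∈ BadJ (addPot L f.1) h0 J Ψ R e0, ‖z‖ ≤ M)
    (hρ : 0 < ρ) {U : Set (Pot n k)} (hU : U ∈ 𝓝 f0) :
    ∃ f ∈ U, PClose f0.1 f.1 (ρ / 2) ∧ ∀ η > 0, SmallCover m η (BadSJ L h0 J Ψ R e0 f) := by
  have hU' := inter_mem hU (pot_pclose_mem_nhds hk f0 (half_pos hρ))
  obtain ⟨ε, hε, hpert⟩ := pot_perturbV f0 Ψ hU'
  set A : Set ((Fin j → ℝ) × E d) := {p | ‖p.1‖ < ε ∧ p.2 ∈ BadSJ L h0 J Ψ R e0 (addV f0 Ψ p.1)} with hA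
  have hbdd : ∀ s : Fin j → ℝ, ‖s‖ < ε → ∀ z ∈ BadSJ L h0 J Ψ R e0 (addV f0 Ψ s), ‖z‖ ≤ M + 1 := by
    intro s hs z hz
    obtain ⟨f', h1, h2, z', h3, h4⟩ := hz (min 1 (ρ / 2)) (by positivity)
    have h5 := (hpert s hs).2.trans (h2.mono (min_le_right _ _))
    rw [add_halves] at h5
    have h6 := hM f' h1 h5 _ _ _ h3
    have e : z = (z - z') + z' := by abel
    rw [e]
    refine (norm_add_le _ _).trans ?_
    linarith [h4.trans (min_le_left _ _)]
  have hAbd : Bornology.IsBounded (Prod.snd '' A) := by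
    rw [isBounded_iff_forall_norm_le]
    refine ⟨M + 1, ?_⟩
    rintro _ ⟨p, hp, rfl⟩
    exact hbdd p.1 hp.1 _ hp.2
  have hAineq : ∀ p ∈ A, ∀ p' ∈ A, ‖p.1 - p'.1‖ ≤ (1 / 2) * ‖p.2 - p'.2‖ ^ 2 := by
    intro p hp p' hp'
    have := badS_ineqJ hj hp.2 hp'.2
    rw [norm_sub_rev p'.1 p.1] at this
    linarith
  have hsard := sard_aeJ (E := E d) hj (m := m) (by simpa using hd) hAbd (by positivity) hAineq
  have hpos : volume (ball (0 : Fin j → ℝ) ε) ≠ 0 := (measure_ball_pos _ _ hε).ne'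
  obtain ⟨s, hs1, hs2⟩ : ∃ s ∈ ball (0 : Fin j → ℝ) ε, ∀ η > (0:ℝ), ∃ (t : Set (E d)) (r : E d → ℝ), t.Countable ∧
      (∀ x ∈ t, 0 < r x ∧ r x < η) ∧ {z | (s, z) ∈ A} ⊆ ⋃ x ∈ t, closedBall x (r x) ∧
      ∑' x : t, ENNReal.ofReal ((r x) ^ m) < ENNReal.ofReal η := by
    by_contra hcon
    push Not at hcon
    apply hpos
    rw [ae_iff] at hsard
    refine measure_mono_null ?_ hsard
    intro s hs
    have := hcon s hs
    simp only [mem_ofPred_eq]
    push Not
    exact this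
  have hsabs : ‖s‖ < ε := by rwa [mem_ball_zero_iff] at hs1
  have hslice : {z | (s, z) ∈ A} = BadSJ L h0 J Ψ R e0 (addV f0 Ψ s) := by
    ext z
    simp only [hA, mem_ofPred_eq, hsabs, true_and]
  rw [hslice] at hs2
  have hcomp : IsCompact (BadSJ L h0 J Ψ R e0 (addV f0 Ψ s)) := by
    apply (isCompact_closedBall (0 : E d) (M + 1)).of_isClosed_subset (isClosed_badSJ _ _ _ _ _ _ _)
    intro z hz
    rw [mem_closedBall, dist_zero_right]
    exact hbdd s hsabs z hz
  exact ⟨addV f0 Ψ s, (hpert s hsabs).1, (hpert s hsabs).2, fun η hη => smallCover_of_countable hη hcomp hs2⟩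

/-- potentials near which the bad points of Tonelli potentials have a common small cover -/
def GoodJ (m : ℕ) (L : Phase n → ℝ) (h0 : E n) (J : E d →ₗᵢ[ℝ] E n) (Ψ : Fin j → Pot n k) (R : ℝ) (e0 : Fin j → ℝ)
    (η : ℝ) : Set (Pot n k) :=
  {f | ∃ W ∈ 𝓝 f, ∃ F : Finset (E d × ℝ), (∀ p ∈ F, 0 < p.2 ∧ p.2 < η) ∧ ∑ p ∈ F, p.2 ^ m < η ∧
    ∀ f' ∈ W, IsTonelli (addPot L f'.1) → BadJ (addPot L f'.1) h0 J (fun b => (Ψ b).1) R e0 ⊆ ⋃ p ∈ F, ball p.1 p.2}

lemma isOpen_goodJ (m : ℕ) (L : Phase n → ℝ) (h0 : E n) (J : E d →ₗᵢ[ℝ] E n) (Ψ : Fin j → Pot n k) (R : ℝ)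
    (e0 : Fin j → ℝ) (η : ℝ) : IsOpen (GoodJ m L h0 J Ψ R e0 η) := by
  rw [isOpen_iff_mem_nhds]
  rintro f ⟨W, hW, F, h1, h2, h3⟩
  obtain ⟨W', hW'W, hW'o, hfW'⟩ := mem_nhds_iff.mp hW
  filter_upwards [hW'o.mem_nhds hfW'] with f1 hf1
  exact ⟨W', hW'o.mem_nhds hf1, F, h1, h2, fun f' hf' => h3 f' (hW'W hf')⟩

lemma dense_goodJ (hj : 1 ≤ j) {m : ℕ} (hd : d ≤ m + 2 * j) {L : Phase n → ℝ} (hL : IsC2 L) (hk : 1 ≤ k) (h0 : E n)
    (J : E d →ₗᵢ[ℝ] E n) (Ψ : Fin j → Pot n k) (R : ℝ) (e0 : Fin j → ℝ) {η : ℝ} (hη : 0 < η) :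
    Dense (GoodJ m L h0 J Ψ R e0 η) := by
  rw [dense_iff_inter_open]
  rintro U hUo ⟨f1, hf1⟩
  by_cases hex : ∃ f0 ∈ U, IsTonelli (addPot L f0.1)
  · obtain ⟨f0, hf0U, hf0⟩ := hex
    obtain ⟨M, ρ, hρ, hM⟩ := bad_bounded_nearJ (j := j) hL hk hf0 h0 J R
    obtain ⟨f, hfU, hfcl, hcov⟩ := badS_denseJ (Ψ := Ψ) (e0 := e0) hj hd hk hM hρ (hUo.mem_nhds hf0U)
    obtain ⟨F, h1, h2, h3⟩ := hcov η hη
    have hVo : IsOpen (⋃ p ∈ F, ball p.1 p.2) := isOpen_biUnion fun _ _ => isOpen_ball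
    obtain ⟨ε, hε, husc⟩ := badS_uscJ hM hρ hfcl hVo h2
    refine ⟨f, hfU, {f' | PClose f.1 f'.1 ε}, pot_pclose_mem_nhds hk f hε, F, h1, h3, fun f' hf' hT => husc f' hT hf'⟩
  · push Not at hex
    refine ⟨f1, hf1, U, hUo.mem_nhds hf1, ∅, by simp, by simpa using hη, fun f' hf' hT => absurd hT (hex f' hf')⟩

/-- parameters `u` for which a bad tuple with rotation vector `h0 + J u` and given parameters exists -/
def HBadJ (L : Phase n → ℝ) (h0 : E n) (J : E d →ₗᵢ[ℝ] E n) (Ψ : Fin j → Tor n × UnitAddCircle → ℝ) (R : ℝ)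
    (e0 : Fin j → ℝ) : Set (E d) :=
  {u | ∃ (c : E n) (μ1 : ProbabilityMeasure (Phase n)), IsMin (shift L c) μ1 ∧ rot μ1 = h0 + J u ∧
    adj J c + u ∈ BadJ L h0 J Ψ R e0}

lemma hbad_nullJ {m : ℕ} {L : Phase n → ℝ} (hL : IsTonelli L) {h0 : E n} {J : E d →ₗᵢ[ℝ] E n}
    {Ψ : Fin j → Tor n × UnitAddCircle → ℝ} {R : ℝ} {e0 : Fin j → ℝ}
    (h : ∀ η > 0, SmallCover m η (BadJ L h0 J Ψ R e0)) : μH[(m:ℝ)] (HBadJ L h0 J Ψ R e0) = 0 := by
  have hex : ∀ x : E d, ∃ c : E n, x ∈ HBadJ L h0 J Ψ R e0 →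
      ∃ μ1 : ProbabilityMeasure (Phase n), IsMin (shift L c) μ1 ∧ rot μ1 = h0 + J x ∧ adj J c + x ∈ BadJ L h0 J Ψ R e0 := by
    intro x
    by_cases hx : x ∈ HBadJ L h0 J Ψ R e0
    · obtain ⟨c, μ1, h1, h2, h3⟩ := hx
      exact ⟨c, fun _ => ⟨μ1, h1, h2, h3⟩⟩
    · exact ⟨0, fun h => absurd h hx⟩
  choose c hc using hex
  apply hausdorff_null_of_relation (Z := BadJ L h0 J Ψ R e0) h (fun x => adj J (c x) + x)
  · intro x hx
    obtain ⟨μ1, h1, h2, h3⟩ := hc x hx
    exact h3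
  · intro x hx y hy
    obtain ⟨μ1, h1, h2, -⟩ := hc x hx
    obtain ⟨μ2, h1', h2', -⟩ := hc y hy
    exact mono_ineq hL h1' h1 h2' h2

/-! ### Affinely independent minimizing measures -/

/-- weighted combination of probability measures -/
noncomputable def wcomb {ι : Type*} [Fintype ι] (w : ι → ℝ) (hw0 : ∀ i, 0 ≤ w i) (hw1 : ∑ i, w i = 1)
    (μ : ι → ProbabilityMeasure (Phase n)) : ProbabilityMeasure (Phase n) :=
  ⟨∑ i, ENNReal.ofReal (w i) • (μ i : Measure (Phase n)), ⟨by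
    simp only [Measure.finsetSum_apply, Measure.smul_apply, measure_univ, smul_eq_mul, mul_one]
    rw [← ENNReal.ofReal_sum_of_nonneg fun i _ => hw0 i, hw1, ENNReal.ofReal_one]⟩⟩

lemma wcomb_coe {ι : Type*} [Fintype ι] {w : ι → ℝ} (hw0 : ∀ i, 0 ≤ w i) (hw1 : ∑ i, w i = 1)
    (μ : ι → ProbabilityMeasure (Phase n)) :
    (wcomb w hw0 hw1 μ : Measure (Phase n)) = ∑ i, ENNReal.ofReal (w i) • (μ i : Measure (Phase n)) := rfl

lemma integral_wcomb {ι : Type*} [Fintype ι] {w : ι → ℝ} (hw0 : ∀ i, 0 ≤ w i) (hw1 : ∑ i, w i = 1)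
    {μ : ι → ProbabilityMeasure (Phase n)} {F : Type*} [NormedAddCommGroup F] [NormedSpace ℝ F] {g : Phase n → F}
    (hg : ∀ i, Integrable g (μ i : Measure (Phase n))) :
    ∫ z, g z ∂(wcomb w hw0 hw1 μ : Measure (Phase n)) = ∑ i, w i • ∫ z, g z ∂(μ i : Measure (Phase n)) := by
  rw [wcomb_coe, integral_finsetSum_measure (fun i _ => (hg i).smul_measure ENNReal.ofReal_ne_top)]
  apply Finset.sum_congr rfl
  intro i _
  rw [integral_smul_measure, ENNReal.toReal_ofReal (hw0 i)]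

lemma isMin_wcomb {ι : Type*} [Fintype ι] {L : Phase n → ℝ} (hL : IsTonelli L) {w : ι → ℝ} (hw0 : ∀ i, 0 ≤ w i)
    (hw1 : ∑ i, w i = 1) {μ : ι → ProbabilityMeasure (Phase n)} (hμ : ∀ i, IsMin L (μ i)) :
    IsMin L (wcomb w hw0 hw1 μ) := by
  have hLc := continuous_of_tonelli hL
  refine ⟨⟨?_, fun r => ?_⟩, fun ξ hξ => ?_⟩
  · choose S hS hS0 using fun i => (hμ i).1.compact_support
    refine ⟨⋃ i, S i, isCompact_iUnion hS, ?_⟩
    rw [wcomb_coe]
    simp only [Measure.finsetSum_apply, Measure.smul_apply, smul_eq_mul]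
    apply Finset.sum_eq_zero
    intro i _
    rw [measure_mono_null (compl_subset_compl.mpr (subset_iUnion S i)) (hS0 i), mul_zero]
  · have hc := (continuous_flow_map hL r).measurable
    ext s hs
    rw [Measure.map_apply hc hs, wcomb_coe]
    simp only [Measure.finsetSum_apply, Measure.smul_apply, smul_eq_mul]
    apply Finset.sum_congr rfl
    intro i _
    rw [← Measure.map_apply hc hs, (hμ i).1.invariant r]
  · choose K hK using fun i => (hμ i).1.exists_conc
    have := integral_wcomb hw0 hw1 (fun i => (hK i).integrable hLc)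
    simp only [action] at this ⊢
    rw [this]
    calc ∑ i, w i • ∫ z, L z ∂(μ i : Measure (Phase n)) ≤ ∑ i, w i * ∫ z, L z ∂(ξ : Measure (Phase n)) := by
          apply Finset.sum_le_sum
          intro i _
          have := (hμ i).2 ξ hξ
          simp only [action] at this
          rw [smul_eq_mul]
          exact mul_le_mul_of_nonneg_left this (hw0 i)
      _ = ∫ z, L z ∂(ξ : Measure (Phase n)) := by rw [← Finset.sum_mul, hw1, one_mul]

/-- a linear relation between the projections of minimizing measures is one between the measures -/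
lemma relation_lift {L : Phase n → ℝ} (hL : IsTonelli L) {N : ℕ} {μ : Fin N → ProbabilityMeasure (Phase n)}
    (hμ : ∀ i, IsMin L (μ i)) {b : Fin N → ℝ} (hb : ∑ i, b i = 0)
    (hg : ∀ g : C(Tor n × UnitAddCircle, ℝ), ∑ i, b i * pint g (μ i) = 0) :
    ∑ i, b i • (μ i : Measure (Phase n)).toSignedMeasure = 0 := by
  set M : ℝ := ∑ i, max (b i) 0 with hM
  have hM' : ∑ i, max (-b i) 0 = M := by
    have : ∀ i, max (-b i) 0 = max (b i) 0 - b i := by
      intro i
      rcases le_total 0 (b i) with h | h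
      · rw [max_eq_right (by linarith), max_eq_left h]; ring
      · rw [max_eq_left (by linarith), max_eq_right h]; ring
    simp only [this]
    rw [Finset.sum_sub_distrib, hb, sub_zero]
  by_cases hM0 : M = 0
  · have hz : ∀ i, b i = 0 := by
      intro i
      have h1 : max (b i) 0 = 0 := (Finset.sum_eq_zero_iff_of_nonneg (fun i _ => le_max_right _ _)).mp hM0 i (Finset.mem_univ _)
      have h2 : max (-b i) 0 = 0 := by
        rw [hM0] at hM'
        exact (Finset.sum_eq_zero_iff_of_nonneg (fun i _ => le_max_right _ _)).mp hM' i (Finset.mem_univ _)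
      have h3 := le_max_left (b i) 0
      have h4 := le_max_left (-b i) 0
      linarith
    simp [hz]
  have hMpos : 0 < M := lt_of_le_of_ne (Finset.sum_nonneg fun i _ => le_max_right _ _) (Ne.symm hM0)
  have w0 : ∀ i, 0 ≤ max (b i) 0 / M := fun i => div_nonneg (le_max_right _ _) hMpos.le
  have w0' : ∀ i, 0 ≤ max (-b i) 0 / M := fun i => div_nonneg (le_max_right _ _) hMpos.le
  have w1 : ∑ i, max (b i) 0 / M = 1 := by rw [← Finset.sum_div]; exact div_self hM0
  have w1' : ∑ i, max (-b i) 0 / M = 1 := by rw [← Finset.sum_div, hM']; exact div_self hM0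
  have hint : ∀ (g : C(Tor n × UnitAddCircle, ℝ)) (m : ProbabilityMeasure (Phase n)),
      Integrable (fun z => g (prj z)) (m : Measure (Phase n)) := by
    intro f m
    apply Integrable.of_bound (f.continuous.comp continuous_prj).aestronglyMeasurable ‖f‖
    exact Eventually.of_forall fun z => f.norm_coe_le_norm _
  have hp : (wcomb _ w0 w1 μ : Measure (Phase n)).map prj = (wcomb _ w0' w1' μ : Measure (Phase n)).map prj := by
    have hp1 : IsProbabilityMeasure ((wcomb _ w0 w1 μ : Measure (Phase n)).map prj) :=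
      Measure.isProbabilityMeasure_map continuous_prj.aemeasurable
    have hp2 : IsProbabilityMeasure ((wcomb _ w0' w1' μ : Measure (Phase n)).map prj) :=
      Measure.isProbabilityMeasure_map continuous_prj.aemeasurable
    apply ext_of_forall_integral_eq_of_IsFiniteMeasure
    intro g
    rw [integral_map continuous_prj.aemeasurable g.continuous.aestronglyMeasurable,
      integral_map continuous_prj.aemeasurable g.continuous.aestronglyMeasurable]
    have h1 := integral_wcomb w0 w1 (g := fun z => g (prj z)) (fun i => hint g.toContinuousMap (μ i))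
    have h2 := integral_wcomb w0' w1' (g := fun z => g (prj z)) (fun i => hint g.toContinuousMap (μ i))
    rw [h1, h2, ← sub_eq_zero, ← Finset.sum_sub_distrib]
    have h3 := hg g.toContinuousMap
    simp only [pint] at h3
    have h4 : ∀ i, (max (b i) 0 / M) • (∫ z, g (prj z) ∂(μ i : Measure (Phase n))) -
        (max (-b i) 0 / M) • (∫ z, g (prj z) ∂(μ i : Measure (Phase n))) =
        (1 / M) * (b i * ∫ z, g (prj z) ∂(μ i : Measure (Phase n))) := by
      intro i
      rw [smul_eq_mul, smul_eq_mul]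
      have : max (b i) 0 - max (-b i) 0 = b i := by
        rcases le_total 0 (b i) with h | h
        · rw [max_eq_right (by linarith : -b i ≤ 0), max_eq_left h]; ring
        · rw [max_eq_left (by linarith : (0:ℝ) ≤ -b i), max_eq_right h]; ring
      rw [← sub_mul, ← sub_div, this]; ring
    rw [Finset.sum_congr rfl fun i _ => h4 i, ← Finset.mul_sum]
    have h5 : ∑ i, b i * ∫ z, g (prj z) ∂(μ i : Measure (Phase n)) = 0 := h3
    rw [h5, mul_zero]
  have heq := (isMin_wcomb hL w0 w1 hμ).unique_of_prj hL (isMin_wcomb hL w0' w1' hμ) hp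
  ext s hs
  have h1 : (wcomb _ w0 w1 μ : Measure (Phase n)) s = (wcomb _ w0' w1' μ : Measure (Phase n)) s := by rw [heq]
  rw [wcomb_coe, wcomb_coe] at h1
  simp only [Measure.finsetSum_apply, Measure.smul_apply, smul_eq_mul] at h1
  have h2 := congrArg ENNReal.toReal h1
  have hfin : ∀ (w : ℝ) (i : Fin N), ENNReal.ofReal w * (μ i : Measure (Phase n)) s ≠ ∞ := fun w i =>
    ENNReal.mul_ne_top ENNReal.ofReal_ne_top (measure_ne_top _ _)
  rw [ENNReal.toReal_sum fun i _ => hfin _ i, ENNReal.toReal_sum fun i _ => hfin _ i] at h2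
  simp only [ENNReal.toReal_mul, ENNReal.toReal_ofReal (w0 _), ENNReal.toReal_ofReal (w0' _)] at h2
  rw [← sub_eq_zero, ← Finset.sum_sub_distrib] at h2
  have h3 : ∀ i, (max (b i) 0 / M) * ((μ i : Measure (Phase n)) s).toReal -
      (max (-b i) 0 / M) * ((μ i : Measure (Phase n)) s).toReal = (1 / M) * (b i * ((μ i : Measure (Phase n)) s).toReal) := by
    intro i
    have : max (b i) 0 - max (-b i) 0 = b i := by
      rcases le_total 0 (b i) with h | h
      · rw [max_eq_right (by linarith : -b i ≤ 0), max_eq_left h]; ring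
      · rw [max_eq_left (by linarith : (0:ℝ) ≤ -b i), max_eq_right h]; ring
    rw [← sub_mul, ← sub_div, this]; ring
  rw [Finset.sum_congr rfl fun i _ => h3 i, ← Finset.mul_sum] at h2
  have h4 : ∑ i, b i * ((μ i : Measure (Phase n)) s).toReal = 0 := by
    rcases mul_eq_zero.mp h2 with h | h
    · exact absurd h (by positivity)
    · exact h
  rw [FunLike.coe_sum]
  simp only [Finset.sum_apply, _root_.smul_apply, _root_.zero_apply, smul_eq_mul]
  rw [← h4]
  apply Finset.sum_congr rfl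
  intro i _
  rw [Measure.toSignedMeasure_apply_measurable hs]
  rfl

/-- test functions dual to affinely independent minimizing measures -/
lemma exists_dual {L : Phase n → ℝ} (hL : IsTonelli L) {μ : Fin (j + 1) → ProbabilityMeasure (Phase n)}
    (hμ : ∀ i, IsMin L (μ i)) (hind : AffineIndependent ℝ (fun i => (μ i : Measure (Phase n)).toSignedMeasure))
    (b : Fin j) : ∃ g : C(Tor n × UnitAddCircle, ℝ), ∀ a : Fin j,
      pint g (μ a.succ) - pint g (μ 0) = if a = b then 1 else 0 := by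
  have hint : ∀ (g : C(Tor n × UnitAddCircle, ℝ)) (m : ProbabilityMeasure (Phase n)),
      Integrable (fun z => g (prj z)) (m : Measure (Phase n)) := by
    intro f m
    apply Integrable.of_bound (f.continuous.comp continuous_prj).aestronglyMeasurable ‖f‖
    exact Eventually.of_forall fun z => f.norm_coe_le_norm _
  have hadd : ∀ (g g' : C(Tor n × UnitAddCircle, ℝ)) (m : ProbabilityMeasure (Phase n)),
      pint (g + g' : C(Tor n × UnitAddCircle, ℝ)) m = pint g m + pint g' m := by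
    intro g g' m
    simp only [pint]
    rw [← integral_add (hint g m) (hint g' m)]
    rfl
  have hsmul : ∀ (r : ℝ) (g : C(Tor n × UnitAddCircle, ℝ)) (m : ProbabilityMeasure (Phase n)),
      pint (r • g : C(Tor n × UnitAddCircle, ℝ)) m = r * pint g m := by
    intro r g m
    simp only [pint]
    rw [← integral_const_mul]
    rfl
  let T : C(Tor n × UnitAddCircle, ℝ) →ₗ[ℝ] (Fin j → ℝ) :=
    { toFun := fun g a => pint g (μ a.succ) - pint g (μ 0)
      map_add' := fun g g' => by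
        ext a
        simp only [Pi.add_apply, hadd]; ring
      map_smul' := fun r g => by
        ext a
        simp only [Pi.smul_apply, RingHom.id_apply, smul_eq_mul, hsmul]; ring }
  have htop : LinearMap.range T = ⊤ := by
    by_contra hcon
    obtain ⟨φ, hφ0, hφ⟩ := Submodule.exists_le_ker_of_lt_top _ (lt_top_iff_ne_top.mpr hcon)
    apply hφ0
    -- coefficients
    set w : Fin j → ℝ := fun a => φ (Pi.single a 1) with hw
    have hφw : ∀ x : Fin j → ℝ, φ x = ∑ a, w a * x a := by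
      intro x
      conv_lhs => rw [← Finset.univ_sum_single x]
      rw [map_sum]
      apply Finset.sum_congr rfl
      intro a _
      have : (Pi.single a (x a) : Fin j → ℝ) = x a • Pi.single a 1 := by
        rw [← Pi.single_smul, smul_eq_mul, mul_one]
      rw [this, map_smul, smul_eq_mul, mul_comm]
    have hrel : ∀ g : C(Tor n × UnitAddCircle, ℝ), ∑ a, w a * (pint g (μ a.succ) - pint g (μ 0)) = 0 := by
      intro g
      have h1 : T g ∈ LinearMap.ker φ := hφ (LinearMap.mem_range_self T g)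
      rw [LinearMap.mem_ker, hφw] at h1
      exact h1
    let c : Fin (j + 1) → ℝ := Fin.cons (-∑ a, w a) w
    have hc0 : ∑ i, c i = 0 := by
      rw [Fin.sum_univ_succ]
      simp [c]
    have hcg : ∀ g : C(Tor n × UnitAddCircle, ℝ), ∑ i, c i * pint g (μ i) = 0 := by
      intro g
      rw [Fin.sum_univ_succ, ← hrel g]
      simp only [c, Fin.cons_zero, Fin.cons_succ, mul_sub, Finset.sum_sub_distrib, ← Finset.sum_mul]
      ring
    have h1 := relation_lift hL hμ hc0 hcg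
    rw [affineIndependent_iff] at hind
    have h2 := hind Finset.univ c hc0 h1
    ext a
    have h3 := h2 a.succ (Finset.mem_univ _)
    simp only [c, Fin.cons_succ] at h3
    simp only [LinearMap.comp_apply, LinearMap.zero_apply, LinearMap.single_apply]
    exact h3
  obtain ⟨g, hg⟩ := LinearMap.range_eq_top.mp htop (Pi.single b 1)
  refine ⟨g, fun a => ?_⟩
  have := congrFun hg a
  rw [Pi.single_apply] at this
  exact this

lemma exists_hbadJ {L : Phase n → ℝ} (hL : IsTonelli L) {h0 : E n} {J : E d →ₗᵢ[ℝ] E n} {ψ : ℕ → Pot n k}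
    (hψ : ∀ (g : C(Tor n × UnitAddCircle, ℝ)) (ε : ℝ), 0 < ε → ∃ l, ∀ p, |g p - (ψ l).1 p| ≤ ε)
    {u : E d} (hh : DimGE L (h0 + J u) j) :
    ∃ (a : Fin j → ℕ) (N : ℕ) (l : Fin j → ℤ), u ∈ HBadJ L h0 J (fun b => (ψ (a b)).1) N (fun b => l b * (tol j / 2)) := by
  obtain ⟨μ, hμH, hind⟩ := hh
  obtain ⟨c, μ', hμ', hr'⟩ := exists_rot hL (h0 + J u)
  have hiff := isHomMin_iff hL hμ' hr'
  have hμ : ∀ i, IsMin (shift L c) (μ i) := fun i => ((hiff _).mp (hμH i)).1
  have hr : ∀ i, rot (μ i) = h0 + J u := fun i => ((hiff _).mp (hμH i)).2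
  choose g hg using exists_dual (hL.shift c) hμ hind
  have ht := tol_pos j
  choose a ha using fun b => hψ (g b) (tol j / 4) (by positivity)
  obtain ⟨N, hN⟩ := exists_nat_ge ‖c‖
  have hδ0 : 0 < tol j / 2 := by positivity
  refine ⟨a, N, fun b => ⌊pint (ψ (a b)).1 (μ 0) / (tol j / 2)⌋, c, μ 0, hμ 0, hr 0, c, μ 0, fun b => μ b.succ, u, hN,
    hμ 0, fun b => hμ _, hr 0, fun b => hr _, rfl, ?_, ?_⟩
  all_goals
    have hfl : ∀ b, |pint (ψ (a b)).1 (μ 0) - ⌊pint (ψ (a b)).1 (μ 0) / (tol j / 2)⌋ * (tol j / 2)| ≤ tol j / 2 := by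
      intro b
      have a1 := Int.floor_le (pint (ψ (a b)).1 (μ 0) / (tol j / 2))
      have a2 := Int.lt_floor_add_one (pint (ψ (a b)).1 (μ 0) / (tol j / 2))
      rw [le_div_iff₀ hδ0] at a1
      rw [div_lt_iff₀ hδ0] at a2
      rw [abs_le]
      constructor <;> linarith
  · intro b
    exact (hfl b).trans (by linarith)
  · intro i b
    have hest : ∀ m : ProbabilityMeasure (Phase n), |pint (g b) m - pint (ψ (a b)).1 m| ≤ tol j / 4 := by
      intro m
      have i1 : Integrable (fun z => g b (prj z)) (m : Measure (Phase n)) := by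
        apply Integrable.of_bound ((g b).continuous.comp continuous_prj).aestronglyMeasurable ‖g b‖
        exact Eventually.of_forall fun z => (g b).norm_coe_le_norm _
      have i2 : Integrable (fun z => (ψ (a b)).1 (prj z)) (m : Measure (Phase n)) := by
        obtain ⟨M, -, hM⟩ := pot_abs_bounded (ψ (a b))
        apply Integrable.of_bound ((pot_continuous (ψ (a b))).comp continuous_prj).aestronglyMeasurable M
        exact Eventually.of_forall fun z => by rw [Real.norm_eq_abs]; exact hM _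
      have e1 : pint (g b) m - pint (ψ (a b)).1 m = pint (fun p => g b p - (ψ (a b)).1 p) m := by
        simp only [pint]
        rw [← integral_sub i1 i2]
      rw [e1]
      exact pint_abs_le (ha b) m
    have h1 := abs_le.mp (hest (μ i.succ))
    have h2 := abs_le.mp (hest (μ 0))
    have h3 := hg b i
    have h4 := abs_le.mp (hfl b)
    rw [← h3, abs_le]
    constructor <;> linarith

/-- The parametrised form of the main theorem. -/
theorem generic_paramJ (hj : 1 ≤ j) {m : ℕ} (hd : d ≤ m + 2 * j) (hk : 1 ≤ k) {L : Phase n → ℝ} (hL : IsC2 L) (h0 : E n)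
    (J : E d →ₗᵢ[ℝ] E n) :
    ∀ᶠ f in residual (Pot n k), IsTonelli (addPot L f.1) →
      μH[(m:ℝ)] {u : E d | DimGE (addPot L f.1) (h0 + J u) j} = 0 := by
  obtain ⟨ψ, hψ⟩ := exists_dense n k
  have hall : ∀ᶠ f in residual (Pot n k), ∀ (a : Fin j → ℕ) (N : ℕ) (l : Fin j → ℤ) (i : ℕ),
      f ∈ GoodJ m L h0 J (fun b => ψ (a b)) N (fun b => l b * (tol j / 2)) (1 / ((i:ℝ) + 1)) := by
    rw [eventually_countable_forall]; intro a
    rw [eventually_countable_forall]; intro N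
    rw [eventually_countable_forall]; intro l
    rw [eventually_countable_forall]; intro i
    exact residual_of_dense_open (isOpen_goodJ _ _ _ _ _ _ _ _) (dense_goodJ hj hd hL hk _ _ _ _ _ (by positivity))
  filter_upwards [hall] with f hf hT
  have hnull : ∀ (a : Fin j → ℕ) (N : ℕ) (l : Fin j → ℤ),
      μH[(m:ℝ)] (HBadJ (addPot L f.1) h0 J (fun b => (ψ (a b)).1) N (fun b => l b * (tol j / 2))) = 0 := by
    intro a N l
    apply hbad_nullJ hT
    intro η hη
    obtain ⟨i, hi⟩ := exists_nat_one_div_lt hη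
    obtain ⟨W, hW, F, h1, h2, h3⟩ := hf a N l i
    refine ⟨F, fun p hp => ⟨(h1 p hp).1, (h1 p hp).2.trans hi⟩, h3 f (mem_of_mem_nhds hW) hT, h2.trans hi⟩
  have hsub : {u : E d | DimGE (addPot L f.1) (h0 + J u) j} ⊆
      ⋃ (a : Fin j → ℕ) (N : ℕ) (l : Fin j → ℤ), HBadJ (addPot L f.1) h0 J (fun b => (ψ (a b)).1) N
        (fun b => l b * (tol j / 2)) := by
    intro h hh
    obtain ⟨a, N, l, hmem⟩ := exists_hbadJ hT hψ hh
    simp only [mem_iUnion]
    exact ⟨a, N, l, hmem⟩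
  refine measure_mono_null hsub ?_
  simp only [measure_iUnion_null_iff]
  exact hnull

/-- The main theorem on an affine subspace. -/
theorem generic_affineJ (hj : 1 ≤ j) {m : ℕ} (hk : 1 ≤ k) {L : Phase n → ℝ} (hL : IsC2 L) (A : AffineSubspace ℝ (E n))
    (hA : Module.finrank ℝ A.direction ≤ m + 2 * j) :
    ∀ᶠ f in residual (Pot n k), IsTonelli (addPot L f.1) → μH[(m:ℝ)] {h | h ∈ A ∧ DimGE (addPot L f.1) h j} = 0 := by
  rcases (A : Set (E n)).eq_empty_or_nonempty with he | ⟨h0, hh0⟩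
  · refine Eventually.of_forall fun f _ => ?_
    have : {h | h ∈ A ∧ DimGE (addPot L f.1) h j} = ∅ := by
      ext x
      simp only [mem_ofPred_eq, mem_empty_iff_false, iff_false, not_and]
      intro hx
      have : x ∈ (A : Set (E n)) := hx
      rw [he] at this
      exact absurd this (notMem_empty x)
    rw [this, measure_empty]
  · let b := stdOrthonormalBasis ℝ A.direction
    let J : E (Module.finrank ℝ A.direction) →ₗᵢ[ℝ] E n := A.direction.subtypeₗᵢ.comp b.repr.symm.toLinearIsometry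
    filter_upwards [generic_paramJ hj hA hk hL h0 J] with f hf hT
    have h1 := hf hT
    have hiso : Isometry (fun u : E (Module.finrank ℝ A.direction) => h0 + J u) := (isometry_add_left h0).comp J.isometry
    have hsub : {h | h ∈ A ∧ DimGE (addPot L f.1) h j} ⊆
        (fun u : E (Module.finrank ℝ A.direction) => h0 + J u) '' {u | DimGE (addPot L f.1) (h0 + J u) j} := by
      rintro h ⟨hh, hu⟩
      have hd : h - h0 ∈ A.direction := by
        have := AffineSubspace.vsub_mem_direction hh hh0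
        simpa using this
      have e : h0 + J (b.repr ⟨h - h0, hd⟩) = h := by simp [J]
      refine ⟨b.repr ⟨h - h0, hd⟩, ?_, e⟩
      simp only [mem_ofPred_eq]
      rw [e]; exact hu
    refine measure_mono_null hsub ?_
    rw [hiso.hausdorffMeasure_image (Or.inl (by positivity))]
    exact h1

/-- The main theorem on countably many affine subspaces. -/
theorem generic_affine_familyJ (hk : 1 ≤ k) {L : Phase n → ℝ} (hL : IsC2 L) (S : ℕ → AffineSubspace ℝ (E n)) :
    ∀ᶠ f in residual (Pot n k), IsTonelli (addPot L f.1) → ∀ i j m : ℕ, 1 ≤ j →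
      Module.finrank ℝ (S i).direction ≤ m + 2 * j → μH[(m:ℝ)] {h | h ∈ S i ∧ DimGE (addPot L f.1) h j} = 0 := by
  have : ∀ᶠ f in residual (Pot n k), ∀ i j m : ℕ, IsTonelli (addPot L f.1) → 1 ≤ j →
      Module.finrank ℝ (S i).direction ≤ m + 2 * j → μH[(m:ℝ)] {h | h ∈ S i ∧ DimGE (addPot L f.1) h j} = 0 := by
    rw [eventually_countable_forall]; intro i
    rw [eventually_countable_forall]; intro j
    rw [eventually_countable_forall]; intro m
    by_cases h : 1 ≤ j ∧ Module.finrank ℝ (S i).direction ≤ m + 2 * j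
    · filter_upwards [generic_affineJ h.1 hk hL (S i) h.2] with f hf hT _ _
      exact hf hT
    · exact Eventually.of_forall fun f _ h1 h2 => absurd ⟨h1, h2⟩ h
  filter_upwards [this] with f hf hT i j m h1 h2
  exact hf i j m hT h1 h2

/-- For a generic potential there are, for every `h`, fewer than `n / 2 + 1` affinely independent minimizing
measures. -/
theorem generic_dim (hk : 1 ≤ k) {L : Phase n → ℝ} (hL : IsC2 L) :
    ∀ᶠ f in residual (Pot n k), IsTonelli (addPot L f.1) → ∀ (h : E n) (j : ℕ), 1 ≤ j → n ≤ 2 * j →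
      ¬ DimGE (addPot L f.1) h j := by
  filter_upwards [generic_affine_familyJ hk hL (fun _ => ⊤)] with f hf hT h j hj hn hcon
  have h0 := hf hT 0 j 0 hj (by
    rw [AffineSubspace.direction_top, finrank_top]; simpa using hn)
  rw [Nat.cast_zero] at h0
  have hsub : ({h} : Set (E n)) ⊆ {h | h ∈ (⊤ : AffineSubspace ℝ (E n)) ∧ DimGE (addPot L f.1) h j} := by
    rintro x rfl
    exact ⟨AffineSubspace.mem_top ℝ _ x, hcon⟩
  have h1 := measure_mono_null hsub h0
  rw [Measure.hausdorffMeasure_zero_singleton] at h1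
  exact one_ne_zero h1

end Pool.Agent.Lib.ManeD
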