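import Pool.Agent.Lib.ManeD.GenJ
import Pool.Agent.Lib.ManeD.DefsC

/-!
The phase rule.
-/

open Set Filter Topology MeasureTheory Metric BoundedContinuousFunction
open scoped ENNReal NNReal Interval RealInnerProductSpace

namespace Pool.Agent.Lib.ManeD

open Pool.Agent.Lib.Mane

variable {n d j k : ℕ}

lemma isCMin_iff {L : Phase n → ℝ} (hL : IsTonelli L) {c : E n} {μ : ProbabilityMeasure (Phase n)} :
    IsCMin L c μ ↔ IsMin (shift L c) μ := by
  have hLc := continuous_of_tonelli hL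
  constructor
  · rintro ⟨h1, h2⟩
    refine ⟨(isInv_shift hL c).mpr h1, fun ξ hξ => ?_⟩
    have hξ' := (isInv_shift hL c).mp hξ
    obtain ⟨K, hK⟩ := h1.exists_conc
    obtain ⟨K', hK'⟩ := hξ'.exists_conc
    rw [hK.action_shift hLc, hK'.action_shift hLc]
    exact h2 ξ hξ'
  · rintro ⟨h1, h2⟩
    have h1' := (isInv_shift hL c).mp h1
    refine ⟨h1', fun ξ hξ => ?_⟩
    obtain ⟨K, hK⟩ := h1'.exists_conc
    obtain ⟨K', hK'⟩ := hξ.exists_conc
    have := h2 ξ ((isInv_shift hL c).mpr hξ)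
    rwa [hK.action_shift hLc, hK'.action_shift hLc] at this

/-- a measure which minimizes for several classes minimizes for their convex combinations -/
lemma isMin_convex {L : Phase n → ℝ} (hL : IsTonelli L) {ι : Type*} [Fintype ι] {s : ι → ℝ} (hs0 : ∀ i, 0 ≤ s i)
    (hs1 : ∑ i, s i = 1) {c : ι → E n} {μ : ProbabilityMeasure (Phase n)} (h : ∀ i, IsMin (shift L (c i)) μ) (hne : Nonempty ι) :
    IsMin (shift L (∑ i, s i • c i)) μ := by
  rw [← isCMin_iff hL]
  have h' : ∀ i, IsCMin L (c i) μ := fun i => (isCMin_iff hL).mpr (h i)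
  refine ⟨(h' hne.some).1, fun ξ hξ => ?_⟩
  have e : ∀ m : ProbabilityMeasure (Phase n), action L m - ⟪∑ i, s i • c i, rot m⟫ =
      ∑ i, s i * (action L m - ⟪c i, rot m⟫) := by
    intro m
    rw [sum_inner]
    simp only [real_inner_smul_left, mul_sub, Finset.sum_sub_distrib]
    rw [← Finset.sum_mul, hs1, one_mul]
  rw [e, e]
  exact Finset.sum_le_sum fun i _ => mul_le_mul_of_nonneg_left ((h' i).2 ξ hξ) (hs0 i)

theorem generic_small (hj : 1 ≤ j) {m : ℕ} (hd : d ≤ m + 2 * j) (hk : 1 ≤ k) {L : Phase n → ℝ} (hL : IsC2 L) (h0 : E n)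
    (J : E d →ₗᵢ[ℝ] E n) (ψ : ℕ → Pot n k) :
    ∀ᶠ f in residual (Pot n k), IsTonelli (addPot L f.1) → ∀ (a : Fin j → ℕ) (N : ℕ) (l : Fin j → ℤ), ∀ η > 0,
      SmallCover m η (BadJ (addPot L f.1) h0 J (fun b => (ψ (a b)).1) N (fun b => l b * (tol j / 2))) := by
  have hall : ∀ᶠ f in residual (Pot n k), ∀ (a : Fin j → ℕ) (N : ℕ) (l : Fin j → ℤ) (i : ℕ),
      f ∈ GoodJ m L h0 J (fun b => ψ (a b)) N (fun b => l b * (tol j / 2)) (1 / ((i:ℝ) + 1)) := by
    rw [eventually_countable_forall]; intro a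
    rw [eventually_countable_forall]; intro N
    rw [eventually_countable_forall]; intro l
    rw [eventually_countable_forall]; intro i
    exact residual_of_dense_open (isOpen_goodJ _ _ _ _ _ _ _ _) (dense_goodJ hj hd hL hk _ _ _ _ _ (by positivity))
  filter_upwards [hall] with f hf hT a N l η hη
  obtain ⟨i, hi⟩ := exists_nat_one_div_lt hη
  obtain ⟨W, hW, F, h1, h2, h3⟩ := hf a N l i
  exact ⟨F, fun p hp => ⟨(h1 p hp).1, (h1 p hp).2.trans hi⟩, h3 f (mem_of_mem_nhds hW) hT, h2.trans hi⟩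

lemma adj_id (c : E n) : adj (LinearIsometry.id : E n →ₗᵢ[ℝ] E n) c = c := by
  apply ext_inner_right ℝ
  intro v
  rw [inner_adj]
  rfl

/-- the mixture `(1 - ε) μ + ε ν` -/
noncomputable def mix (ε : ℝ) (h0 : 0 ≤ ε) (h1 : ε ≤ 1) (μ ν : ProbabilityMeasure (Phase n)) : ProbabilityMeasure (Phase n) :=
  wcomb ![1 - ε, ε] (by intro i; fin_cases i <;> simp [h0, h1]) (by simp) ![μ, ν]

lemma isMin_mix {L : Phase n → ℝ} (hL : IsTonelli L) {ε : ℝ} (h0 : 0 ≤ ε) (h1 : ε ≤ 1) {μ ν : ProbabilityMeasure (Phase n)}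
    (hμ : IsMin L μ) (hν : IsMin L ν) : IsMin L (mix ε h0 h1 μ ν) := by
  apply isMin_wcomb hL
  intro i
  fin_cases i
  · exact hμ
  · exact hν

lemma integral_mix {ε : ℝ} (h0 : 0 ≤ ε) (h1 : ε ≤ 1) {μ ν : ProbabilityMeasure (Phase n)} {F : Type*}
    [NormedAddCommGroup F] [NormedSpace ℝ F] {g : Phase n → F} (hμ : Integrable g (μ : Measure (Phase n)))
    (hν : Integrable g (ν : Measure (Phase n))) :
    ∫ z, g z ∂(mix ε h0 h1 μ ν : Measure (Phase n)) =
      (1 - ε) • (∫ z, g z ∂(μ : Measure (Phase n))) + ε • ∫ z, g z ∂(ν : Measure (Phase n)) := by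
  rw [mix, integral_wcomb]
  · rw [Fin.sum_univ_two]; rfl
  · intro i
    fin_cases i
    · exact hμ
    · exact hν

lemma bad_box {L : Phase n → ℝ} (hL : IsTonelli L) {ψ : ℕ → Pot n k}
    (hψ : ∀ (g : C(Tor n × UnitAddCircle, ℝ)) (ε : ℝ), 0 < ε → ∃ l, ∀ p, |g p - (ψ l).1 p| ≤ ε)
    {p r : ℕ} {c : Fin (p + 1) → E n} {ν : Fin (r + 1) → ProbabilityMeasure (Phase n)}
    {μ : Fin (j + 1) → ProbabilityMeasure (Phase n)} {h : E n}
    (hν : ∀ i l, IsMin (shift L (c i)) (ν l)) (hμ : ∀ i a, IsMin (shift L (c i)) (μ a)) (hh : ∀ a, rot (μ a) = h)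
    (hind : AffineIndependent ℝ (fun a => (μ a : Measure (Phase n)).toSignedMeasure)) :
    ∃ (a : Fin j → ℕ) (N : ℕ) (l : Fin j → ℤ) (ε : ℝ), 0 < ε ∧ ∀ (s : Fin (p + 1) → ℝ) (t : Fin (r + 1) → ℝ),
      (∀ i, 0 ≤ s i) → ∑ i, s i = 1 → (∀ i, 0 ≤ t i) → ∑ i, t i = 1 →
      (∑ i, s i • c i) + ((1 - ε) • h + ε • ∑ i, t i • rot (ν i)) ∈
        BadJ L 0 LinearIsometry.id (fun b => (ψ (a b)).1) N (fun b => l b * (tol j / 2)) := by
  choose g hg using exists_dual (hL.shift (c 0)) (hμ 0) hind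
  have ht := tol_pos j
  have ht1 : tol j ≤ 1 := by
    unfold tol
    rw [div_le_one (by positivity)]
    have : (0:ℝ) ≤ j := Nat.cast_nonneg j
    linarith
  choose a ha using fun b => hψ (g b) (tol j / 8) (by positivity)
  choose M hM0 hM using fun b => pot_abs_bounded (ψ (a b))
  set B : ℝ := ∑ b, M b + 1 with hB
  have hB1 : 1 ≤ B := by
    have := Finset.sum_nonneg fun b (_ : b ∈ Finset.univ) => hM0 b
    linarith
  have hMB : ∀ b, M b ≤ B := by
    intro b
    have := Finset.single_le_sum (fun b _ => hM0 b) (Finset.mem_univ b)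
    linarith
  have hpB : ∀ b (m : ProbabilityMeasure (Phase n)), |pint (ψ (a b)).1 m| ≤ B := fun b m =>
    (pint_abs_le (hM b) m).trans (hMB b)
  set ε : ℝ := tol j / (8 * B) with hε
  have hε0 : 0 < ε := by positivity
  have hε1 : ε ≤ 1 := by
    rw [hε, div_le_one (by positivity)]; linarith
  have hεB : ε * B = tol j / 8 := by
    rw [hε]; field_simp
  obtain ⟨N, hN⟩ := exists_nat_ge (∑ i, ‖c i‖)
  have hcN : ∀ i, ‖c i‖ ≤ N := fun i =>
    (Finset.single_le_sum (f := fun i => ‖c i‖) (fun i _ => norm_nonneg _) (Finset.mem_univ i)).trans hN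
  have hδ0 : 0 < tol j / 2 := by positivity
  refine ⟨a, N, fun b => ⌊pint (ψ (a b)).1 (μ 0) / (tol j / 2)⌋, ε, hε0, fun s t hs0 hs1 ht0 ht1' => ?_⟩
  set c' := ∑ i, s i • c i with hc'
  have hμ' : ∀ a, IsMin (shift L c') (μ a) := fun a => isMin_convex hL hs0 hs1 (fun i => hμ i a) ⟨0⟩
  have hν' : ∀ a, IsMin (shift L c') (ν a) := fun a => isMin_convex hL hs0 hs1 (fun i => hν i a) ⟨0⟩
  set ν' := wcomb t ht0 ht1' ν with hνd
  have hν'm : IsMin (shift L c') ν' := isMin_wcomb (hL.shift c') ht0 ht1' hν'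
  have hrotν' : rot ν' = ∑ i, t i • rot (ν i) := by
    choose K hK using fun i => (hν' i).1.exists_conc
    exact integral_wcomb ht0 ht1' (fun i => (hK i).integrable (by fun_prop))
  have hrotmix : ∀ a, rot (mix ε hε0.le hε1 (μ a) ν') = (1 - ε) • h + ε • ∑ i, t i • rot (ν i) := by
    intro a
    obtain ⟨K1, hK1⟩ := (hμ' a).1.exists_conc
    obtain ⟨K2, hK2⟩ := hν'm.1.exists_conc
    rw [← hrotν', ← hh a]
    exact integral_mix hε0.le hε1 (hK1.integrable (by fun_prop)) (hK2.integrable (by fun_prop))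
  have hintψ : ∀ b (m : ProbabilityMeasure (Phase n)), Integrable (fun z => (ψ (a b)).1 (prj z)) (m : Measure (Phase n)) := by
    intro b m
    apply Integrable.of_bound ((pot_continuous (ψ (a b))).comp continuous_prj).aestronglyMeasurable (M b)
    exact Eventually.of_forall fun z => by rw [Real.norm_eq_abs]; exact hM b _
  have hpmix : ∀ b i, pint (ψ (a b)).1 (mix ε hε0.le hε1 (μ i) ν') =
      (1 - ε) * pint (ψ (a b)).1 (μ i) + ε * pint (ψ (a b)).1 ν' := fun b i =>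
    integral_mix hε0.le hε1 (hintψ b (μ i)) (hintψ b ν')
  have hpd : ∀ b i, |pint (ψ (a b)).1 (mix ε hε0.le hε1 (μ i) ν') - pint (ψ (a b)).1 (μ i)| ≤ tol j / 4 := by
    intro b i
    rw [hpmix]
    have e : (1 - ε) * pint (ψ (a b)).1 (μ i) + ε * pint (ψ (a b)).1 ν' - pint (ψ (a b)).1 (μ i) =
        ε * (pint (ψ (a b)).1 ν' - pint (ψ (a b)).1 (μ i)) := by ring
    rw [e, abs_mul, abs_of_pos hε0]
    calc ε * |pint (ψ (a b)).1 ν' - pint (ψ (a b)).1 (μ i)| ≤ ε * (B + B) := by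
          gcongr
          exact (abs_sub _ _).trans (add_le_add (hpB b _) (hpB b _))
      _ = tol j / 4 := by rw [mul_add, hεB]; ring
  have hfl : ∀ b, |pint (ψ (a b)).1 (μ 0) - ⌊pint (ψ (a b)).1 (μ 0) / (tol j / 2)⌋ * (tol j / 2)| ≤ tol j / 2 := by
    intro b
    have a1 := Int.floor_le (pint (ψ (a b)).1 (μ 0) / (tol j / 2))
    have a2 := Int.lt_floor_add_one (pint (ψ (a b)).1 (μ 0) / (tol j / 2))
    rw [le_div_iff₀ hδ0] at a1
    rw [div_lt_iff₀ hδ0] at a2
    rw [abs_le]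
    constructor <;> linarith
  refine ⟨c', mix ε hε0.le hε1 (μ 0) ν', fun b => mix ε hε0.le hε1 (μ b.succ) ν',
    (1 - ε) • h + ε • ∑ i, t i • rot (ν i), ?_, isMin_mix (hL.shift c') _ _ (hμ' 0) hν'm,
    fun b => isMin_mix (hL.shift c') _ _ (hμ' _) hν'm, ?_, fun b => ?_, ?_, ?_, ?_⟩
  · calc ‖c'‖ ≤ ∑ i, ‖s i • c i‖ := norm_sum_le _ _
      _ ≤ ∑ i, s i * N := by
        apply Finset.sum_le_sum
        intro i _
        rw [norm_smul, Real.norm_of_nonneg (hs0 i)]
        exact mul_le_mul_of_nonneg_left (hcN i) (hs0 i)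
      _ = N := by rw [← Finset.sum_mul, hs1, one_mul]
  · rw [hrotmix, zero_add]; rfl
  · rw [hrotmix, zero_add]; rfl
  · rw [adj_id]
  · intro b
    have h1 := abs_le.mp (hpd b 0)
    have h2 := abs_le.mp (hfl b)
    rw [abs_le]
    constructor <;> linarith
  · intro i b
    have hest : ∀ m : ProbabilityMeasure (Phase n), |pint (g b) m - pint (ψ (a b)).1 m| ≤ tol j / 8 := by
      intro m
      have i1 : Integrable (fun z => g b (prj z)) (m : Measure (Phase n)) := by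
        apply Integrable.of_bound ((g b).continuous.comp continuous_prj).aestronglyMeasurable ‖g b‖
        exact Eventually.of_forall fun z => (g b).norm_coe_le_norm _
      have e1 : pint (g b) m - pint (ψ (a b)).1 m = pint (fun p => g b p - (ψ (a b)).1 p) m := by
        simp only [pint]
        rw [← integral_sub i1 (hintψ b m)]
      rw [e1]
      exact pint_abs_le (ha b) m
    have h1 := abs_le.mp (hest (μ i.succ))
    have h2 := abs_le.mp (hest (μ 0))
    have h3 := hg b i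
    have h4 := abs_le.mp (hfl b)
    have h5 := abs_le.mp (hpd b i.succ)
    rw [← h3, abs_le]
    constructor <;> linarith

/-- a set containing a `(p + r)`-dimensional box has positive Hausdorff measure in dimension `m ≤ p + r` -/
lemma box_pos {p r m : ℕ} (hm : m ≤ p + r) {x0 : E n} {v : Fin p → E n} {w : Fin r → E n} (hv : LinearIndependent ℝ v)
    (hw : LinearIndependent ℝ w) (hvw : ∀ i l, ⟪v i, w l⟫ = 0) {ρ : ℝ} (hρ : 0 < ρ) {X : Set (E n)}
    (hX : ∀ (s : Fin p → ℝ) (t : Fin r → ℝ), (∀ i, 0 < s i ∧ s i < ρ) → (∀ i, 0 < t i ∧ t i < ρ) →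
      x0 + ((∑ i, s i • v i) + ∑ i, t i • w i) ∈ X) : μH[(m:ℝ)] X ≠ 0 := by
  intro h0
  have hli : LinearIndependent ℝ (Sum.elim v w) := by
    apply hv.sum_type hw
    apply Submodule.IsOrtho.disjoint
    rw [Submodule.isOrtho_span]
    rintro _ ⟨i, rfl⟩ _ ⟨l, rfl⟩
    exact hvw i l
  let Φ : ((Fin p ⊕ Fin r) → ℝ) →ₗ[ℝ] E n := Fintype.linearCombination ℝ (Sum.elim v w)
  have hΦ : ∀ y, Φ y = (∑ i, y (Sum.inl i) • v i) + ∑ i, y (Sum.inr i) • w i := by
    intro y
    simp only [Φ, Fintype.linearCombination_apply, Fintype.sum_sum_type, Sum.elim_inl, Sum.elim_inr]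
  have hker : LinearMap.ker Φ = ⊥ := by
    rw [LinearMap.ker_eq_bot']
    intro y hy
    rw [Fintype.linearIndependent_iff] at hli
    ext x
    exact hli y (by simpa only [Φ, Fintype.linearCombination_apply] using hy) x
  obtain ⟨K, -, hK⟩ := Φ.exists_antilipschitzWith hker
  set D : Set ((Fin p ⊕ Fin r) → ℝ) := Set.pi univ fun _ => Ioo 0 ρ with hD
  have hDo : IsOpen D := isOpen_set_pi finite_univ fun _ _ => isOpen_Ioo
  have hDne : D.Nonempty := ⟨fun _ => ρ / 2, fun _ _ => ⟨by linarith, by linarith⟩⟩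
  have hvol : volume D ≠ 0 := (hDo.measure_pos volume hDne).ne'
  rw [← hausdorffMeasure_pi_real] at hvol
  have hmD : μH[(m:ℝ)] D ≠ 0 := by
    intro h
    apply hvol
    have hle : μH[((Fintype.card (Fin p ⊕ Fin r) : ℕ) : ℝ)] D ≤ μH[(m:ℝ)] D := by
      apply Measure.hausdorffMeasure_mono
      rw [Fintype.card_sum, Fintype.card_fin, Fintype.card_fin]
      exact_mod_cast hm
    rw [h] at hle
    exact le_antisymm hle zero_le
  apply hmD
  have hK' : AntilipschitzWith K (fun y => x0 + Φ y) := by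
    intro y y'
    have := hK y y'
    rwa [edist_add_left]
  have h1 := hK'.le_hausdorffMeasure_image (d := (m:ℝ)) (by positivity) D
  have h2 : μH[(m:ℝ)] ((fun y => x0 + Φ y) '' D) = 0 := by
    refine measure_mono_null ?_ h0
    rintro _ ⟨y, hy, rfl⟩
    simp only [hΦ]
    exact hX (fun i => y (Sum.inl i)) (fun i => y (Sum.inr i)) (fun i => hy (Sum.inl i) (mem_univ _)) (fun i => hy (Sum.inr i) (mem_univ _))
  rw [h2, mul_zero] at h1
  exact le_antisymm h1 zero_le

lemma linInd_of_affine {p : ℕ} {c : Fin (p + 1) → E n} (h : AffineIndependent ℝ c) :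
    LinearIndependent ℝ (fun i : Fin p => c i.succ - c 0) := by
  rw [affineIndependent_iff_linearIndependent_vsub ℝ c 0] at h
  have := h.comp (fun i : Fin p => (⟨i.succ, Fin.succ_ne_zero i⟩ : {x : Fin (p + 1) // x ≠ 0}))
    (fun i i' hii => Fin.succ_injective _ (congrArg Subtype.val hii))
  exact this

lemma cons_weights {p : ℕ} {s : Fin p → ℝ} {ρ : ℝ} (hs : ∀ i, 0 < s i ∧ s i < ρ) (hρ : p * ρ ≤ 1) (c : Fin (p + 1) → E n) :
    (∀ i, 0 ≤ (Fin.cons (1 - ∑ i, s i) s : Fin (p + 1) → ℝ) i) ∧ ∑ i, (Fin.cons (1 - ∑ i, s i) s : Fin (p + 1) → ℝ) i = 1 ∧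
      ∑ i, (Fin.cons (1 - ∑ i, s i) s : Fin (p + 1) → ℝ) i • c i = c 0 + ∑ i, s i • (c i.succ - c 0) := by
  have hsum : ∑ i, s i ≤ 1 := by
    calc ∑ i, s i ≤ ∑ _i : Fin p, ρ := Finset.sum_le_sum fun i _ => (hs i).2.le
      _ = p * ρ := by simp
      _ ≤ 1 := hρ
  refine ⟨fun i => ?_, ?_, ?_⟩
  · refine Fin.cases ?_ (fun i => ?_) i
    · simp only [Fin.cons_zero]; linarith
    · simp only [Fin.cons_succ]; exact (hs i).1.le
  · rw [Fin.sum_univ_succ]; simp
  · rw [Fin.sum_univ_succ]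
    simp only [Fin.cons_zero, Fin.cons_succ, smul_sub, Finset.sum_sub_distrib, sub_smul, one_smul, Finset.sum_smul]
    abel

/-- The phase rule for a generic potential. -/
theorem phase_rule (hk : 1 ≤ k) {L : Phase n → ℝ} (hL : IsC2 L) :
    ∀ᶠ f in residual (Pot n k), IsTonelli (addPot L f.1) →
      ∀ (p r j : ℕ) (c : Fin (p + 1) → E n) (ν : Fin (r + 1) → ProbabilityMeasure (Phase n))
        (μ : Fin (j + 1) → ProbabilityMeasure (Phase n)) (h : E n), 1 ≤ j →
        (∀ i l, IsCMin (addPot L f.1) (c i) (ν l)) → (∀ i a, IsCMin (addPot L f.1) (c i) (μ a)) → (∀ a, rot (μ a) = h) →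
        AffineIndependent ℝ c → AffineIndependent ℝ (fun l => rot (ν l)) →
        AffineIndependent ℝ (fun a => (μ a : Measure (Phase n)).toSignedMeasure) → p + r + 2 * j < n := by
  obtain ⟨ψ, hψ⟩ := exists_dense n k
  have hall : ∀ᶠ f in residual (Pot n k), ∀ j : ℕ, 1 ≤ j → IsTonelli (addPot L f.1) →
      ∀ (a : Fin j → ℕ) (N : ℕ) (l : Fin j → ℤ), ∀ η > 0,
      SmallCover (n - 2 * j) η (BadJ (addPot L f.1) 0 (LinearIsometry.id : E n →ₗᵢ[ℝ] E n) (fun b => (ψ (a b)).1) N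
        (fun b => l b * (tol j / 2))) := by
    rw [eventually_countable_forall]; intro j
    by_cases hj : 1 ≤ j
    · filter_upwards [generic_small hj (m := n - 2 * j) (d := n) (by omega) hk hL 0 LinearIsometry.id ψ] with f hf _
      exact hf
    · exact Eventually.of_forall fun f h => absurd h hj
  filter_upwards [hall] with f hf hT p r j c ν μ h hj hν hμ hh hc hr hind
  by_contra hcon
  push Not at hcon
  have hν' : ∀ i l, IsMin (shift (addPot L f.1) (c i)) (ν l) := fun i l => (isCMin_iff hT).mp (hν i l)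
  have hμ' : ∀ i l, IsMin (shift (addPot L f.1) (c i)) (μ l) := fun i l => (isCMin_iff hT).mp (hμ i l)
  obtain ⟨a, N, l, ε, hε, hbox⟩ := bad_box hT hψ hν' hμ' hh hind
  have hnull := hausdorff_null_of_smallCover (hf j hj hT a N l)
  set ρ : ℝ := 1 / ((p:ℝ) + r + 1) with hρ
  have hρ0 : 0 < ρ := by positivity
  have hpρ : (p:ℝ) * ρ ≤ 1 := by
    rw [hρ, mul_one_div, div_le_one (by positivity)]
    have : (0:ℝ) ≤ r := Nat.cast_nonneg r
    linarith
  have hrρ : (r:ℝ) * ρ ≤ 1 := by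
    rw [hρ, mul_one_div, div_le_one (by positivity)]
    have : (0:ℝ) ≤ p := Nat.cast_nonneg p
    linarith
  have horth : ∀ (i : Fin p) (l : Fin r), ⟪c i.succ - c 0, rot (ν l.succ) - rot (ν 0)⟫ = 0 := by
    intro i l
    have key : ∀ i', action (addPot L f.1) (ν l.succ) - ⟪c i', rot (ν l.succ)⟫ =
        action (addPot L f.1) (ν 0) - ⟪c i', rot (ν 0)⟫ := fun i' =>
      le_antisymm ((hν i' _).2 _ (hν i' 0).1) ((hν i' 0).2 _ (hν i' _).1)
    have k1 := key i.succ
    have k0 := key 0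
    simp only [inner_sub_left, inner_sub_right]
    linarith
  have hρ' : 0 < min ρ (ε * ρ) := by positivity
  refine box_pos (m := n - 2 * j) (by omega) (x0 := c 0 + ((1 - ε) • h + ε • rot (ν 0))) (linInd_of_affine hc) (linInd_of_affine hr)
    horth hρ' (fun s t hs ht => ?_) hnull
  have hs' : ∀ i, 0 < s i ∧ s i < ρ := fun i => ⟨(hs i).1, (hs i).2.trans_le (min_le_left _ _)⟩
  have ht' : ∀ i, 0 < t i / ε ∧ t i / ε < ρ := fun i =>
    ⟨div_pos (ht i).1 hε, by rw [div_lt_iff₀ hε, mul_comm]; exact (ht i).2.trans_le (min_le_right _ _)⟩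
  obtain ⟨s0, s1, s2⟩ := cons_weights hs' hpρ c
  obtain ⟨t0, t1, t2⟩ := cons_weights ht' hrρ (fun l => rot (ν l))
  have := hbox _ _ s0 s1 t0 t1
  rw [s2, t2] at this
  convert this using 1
  have e : ε • (rot (ν 0) + ∑ i : Fin r, (t i / ε) • (rot (ν i.succ) - rot (ν 0))) =
      ε • rot (ν 0) + ∑ i : Fin r, t i • (rot (ν i.succ) - rot (ν 0)) := by
    rw [smul_add, Finset.smul_sum]
    congr 1
    apply Finset.sum_congr rfl
    intro i _
    rw [smul_smul, mul_div_cancel₀ _ hε.ne']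
  rw [e]
  abel

end Pool.Agent.Lib.ManeD
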